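import Pool.Agent.XBL.Base

/-!
# Vertex-transitive graphs: all balls of a given radius are alike
-/

set_option autoImplicit false

open scoped Classical Topology
open Filter

namespace Pool.Agent.XBL

/-- Any vertex can be moved to any other by an automorphism. -/
def VertexTransitive {V : Type*} (G : SimpleGraph V) : Prop :=
  ∀ u v, ∃ φ : G ≃g G, φ u = v

theorem dist_iso_le {V : Type*} {G : SimpleGraph V} (hG : G.Connected) (φ : G ≃g G) (u v : V) :
    G.dist (φ u) (φ v) ≤ G.dist u v := by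
  obtain ⟨q, hq⟩ := hG.exists_walk_length_eq_dist u v
  have := SimpleGraph.dist_le (q.map φ.toHom)
  rw [SimpleGraph.Walk.length_map, hq] at this
  exact this

theorem dist_iso {V : Type*} {G : SimpleGraph V} (hG : G.Connected) (φ : G ≃g G) (u v : V) :
    G.dist (φ u) (φ v) = G.dist u v := by
  apply le_antisymm (dist_iso_le hG φ u v)
  have := dist_iso_le hG φ.symm (φ u) (φ v)
  simpa using this

theorem gball_iso {V : Type*} {G : SimpleGraph V} (hG : G.Connected) (φ : G ≃g G) (u : V)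
    (r : ℕ) : gball G (φ u) r = φ '' gball G u r := by
  ext x
  constructor
  · intro hx
    refine ⟨φ.symm x, ?_, by simp⟩
    have := dist_iso hG φ u (φ.symm x)
    have hx' : G.dist (φ u) x ≤ r := hx
    show G.dist u (φ.symm x) ≤ r
    rw [← this]
    simpa using hx'
  · rintro ⟨y, hy, rfl⟩
    show G.dist (φ u) (φ y) ≤ r
    rw [dist_iso hG]
    exact hy

theorem CheegerGE.iso {V : Type*} {G : SimpleGraph V} (φ : G ≃g G) {B : Set V} {ε : ℝ}
    (h : CheegerGE G B ε) : CheegerGE G (φ '' B) ε := by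
  have hinj : Function.Injective φ := φ.injective
  intro S hS hne hcard
  obtain ⟨T, hTB, rfl⟩ := Set.subset_image_iff.1 hS
  rw [Set.ncard_image_of_injective _ hinj, Set.ncard_image_of_injective _ hinj] at hcard
  have h1 := h T hTB (Set.image_nonempty.1 hne) hcard
  have h2 : edgeBoundary G (φ '' B) (φ '' T) =
      (fun e : V × V => (φ e.1, φ e.2)) '' edgeBoundary G B T := by
    ext ⟨x, y⟩
    constructor
    · rintro ⟨⟨a, ha, rfl⟩, ⟨⟨c, hc, hcy⟩, hyT⟩, hadj⟩
      simp only at hcy hyT hadj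
      subst hcy
      refine ⟨(a, c), ⟨ha, ⟨hc, fun hcT => hyT ⟨c, hcT, rfl⟩⟩, ?_⟩, rfl⟩
      exact φ.map_adj_iff.1 hadj
    · rintro ⟨⟨a, c⟩, ⟨ha, ⟨hc, hcT⟩, hadj⟩, heq⟩
      simp only [Prod.mk.injEq] at heq
      obtain ⟨rfl, rfl⟩ := heq
      refine ⟨⟨a, ha, rfl⟩, ⟨⟨c, hc, rfl⟩, ?_⟩, φ.map_adj_iff.2 hadj⟩
      rintro ⟨c', hc', hcc⟩
      exact hcT (hinj hcc ▸ hc')
  rw [Set.ncard_image_of_injective _ hinj, h2, Set.ncard_image_of_injective]
  · exact h1
  · rintro ⟨a, c⟩ ⟨a', c'⟩ heq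
    simp only [Prod.mk.injEq] at heq
    rw [hinj heq.1, hinj heq.2]

theorem VertexTransitive.ncard_gball {V : Type*} {G : SimpleGraph V} (ht : VertexTransitive G)
    (hG : G.Connected) (o v : V) (r : ℕ) : (gball G v r).ncard = (gball G o r).ncard := by
  obtain ⟨φ, rfl⟩ := ht o v
  rw [gball_iso hG, Set.ncard_image_of_injective _ φ.injective]

theorem VertexTransitive.expRadii_eq {V : Type*} {G : SimpleGraph V} (ht : VertexTransitive G)
    (hG : G.Connected) (o : V) (ε : ℝ) :
    expRadii G ε = {n | CheegerGE G (gball G o n) ε} := by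
  ext n
  constructor
  · intro h
    exact h o
  · intro h v
    obtain ⟨φ, rfl⟩ := ht o v
    rw [gball_iso hG]
    exact CheegerGE.iso φ h

end Pool.Agent.XBL
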