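import Mathlib

/-!
# Balls, Cheeger constants and peeling (helper file for expanding balls)
-/

set_option autoImplicit false

open scoped Classical Topology
open Filter

namespace Pool.Agent.XBL

variable {V : Type*}


/-- The ball `B(v, r)`: vertices at graph distance at most `r` from `v`. -/
def gball (G : SimpleGraph V) (v : V) (r : ℕ) : Set V := {x | G.dist v x ≤ r}

/-- The edges of `G` joining `S` to `B \ S`, each listed once, from its endpoint in `S`. -/
def edgeBoundary (G : SimpleGraph V) (B S : Set V) : Set (V × V) :=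
  {e | e.1 ∈ S ∧ e.2 ∈ B \ S ∧ G.Adj e.1 e.2}

/-- The Cheeger constant of the induced subgraph on the finite set `B` is at least `ε`. -/
def CheegerGE (G : SimpleGraph V) (B : Set V) (ε : ℝ) : Prop :=
  ∀ S ⊆ B, S.Nonempty → 2 * S.ncard ≤ B.ncard → ε * S.ncard ≤ (edgeBoundary G B S).ncard

/-- The largest number of vertices of a ball of radius `n`. -/
noncomputable def maxBall (G : SimpleGraph V) (n : ℕ) : ℕ := ⨆ v : V, (gball G v n).ncard

/-- The radii `n` such that all balls of radius `n` have Cheeger constant at least `ε`. -/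
def expRadii (G : SimpleGraph V) (ε : ℝ) : Set ℕ := {n | ∀ v : V, CheegerGE G (gball G v n) ε}

/-- The points of `U` all of whose neighbours in `B` lie in `U`. -/
noncomputable def peel (G : SimpleGraph V) (B U : Finset V) : Finset V :=
  U.filter (fun x => ∀ y ∈ B, G.Adj x y → y ∈ U)

/-- Iterated peeling. -/
noncomputable def peelIter (G : SimpleGraph V) (B U : Finset V) : ℕ → Finset V
  | 0 => U
  | t + 1 => peel G B (peelIter G B U t)

theorem peel_subset (G : SimpleGraph V) (B U : Finset V) : peel G B U ⊆ U :=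
  Finset.filter_subset _ _

theorem peelIter_subset (G : SimpleGraph V) (B U : Finset V) (t : ℕ) :
    peelIter G B U t ⊆ U := by
  induction t with
  | zero => exact Finset.Subset.refl _
  | succ t ih => exact (peel_subset G B _).trans ih

theorem peel_card {G : SimpleGraph V} {B U : Finset V} {ε D : ℝ}
    (hB : CheegerGE G (B : Set V) ε) (hdeg : ∀ x ∈ B, ((B.filter (G.Adj x)).card : ℝ) ≤ D)
    (hU : U ⊆ B) (hU2 : 2 * U.card ≤ B.card) :
    D * (peel G B U).card ≤ (D - ε) * U.card := by
  rcases U.eq_empty_or_nonempty with rfl | hne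
  · simp [peel]
  have h1 := hB (U : Set V) (by exact_mod_cast hU) (by exact_mod_cast hne)
    (by rw [Set.ncard_coe_finset, Set.ncard_coe_finset]; exact hU2)
  rw [Set.ncard_coe_finset] at h1
  have h2 : edgeBoundary G (B : Set V) (U : Set V) =
      ((U.sigma (fun x => (B \ U).filter (G.Adj x))).image
        (fun p : (_ : V) × V => (p.1, p.2)) : Finset (V × V)) := by
    ext ⟨x, y⟩
    simp only [edgeBoundary, Set.mem_ofPred_eq, Finset.coe_image, Set.mem_image, Finset.mem_coe,
      Finset.mem_sigma, Finset.mem_filter, Finset.mem_sdiff, Set.mem_sdiff, Prod.mk.injEq]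
    constructor
    · rintro ⟨h1, h2, h3⟩
      exact ⟨⟨x, y⟩, ⟨h1, h2, h3⟩, rfl, rfl⟩
    · rintro ⟨⟨x', y'⟩, ⟨h1, h2, h3⟩, rfl, rfl⟩
      exact ⟨h1, h2, h3⟩
  have h3 : ((edgeBoundary G (B : Set V) (U : Set V)).ncard : ℝ) ≤
      D * ((U \ peel G B U).card : ℝ) := by
    rw [h2, Set.ncard_coe_finset]
    have h4 : ((U.sigma (fun x => (B \ U).filter (G.Adj x))).image
        (fun p : (_ : V) × V => (p.1, p.2))).card ≤
        ∑ x ∈ U, ((B \ U).filter (G.Adj x)).card := by
      refine Finset.card_image_le.trans ?_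
      rw [Finset.card_sigma]
    have h5 : ∑ x ∈ U, ((B \ U).filter (G.Adj x)).card =
        ∑ x ∈ U \ peel G B U, ((B \ U).filter (G.Adj x)).card := by
      symm
      apply Finset.sum_subset Finset.sdiff_subset
      intro x hx hx'
      have hxp : x ∈ peel G B U := by
        by_contra hcon
        exact hx' (Finset.mem_sdiff.2 ⟨hx, hcon⟩)
      rw [Finset.card_eq_zero, Finset.filter_eq_empty_iff]
      intro y hy hadj
      rw [Finset.mem_sdiff] at hy
      exact hy.2 ((Finset.mem_filter.1 hxp).2 y hy.1 hadj)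
    calc ((((U.sigma (fun x => (B \ U).filter (G.Adj x))).image
        (fun p : (_ : V) × V => (p.1, p.2))).card : ℕ) : ℝ)
        ≤ ((∑ x ∈ U \ peel G B U, ((B \ U).filter (G.Adj x)).card : ℕ) : ℝ) := by
          exact_mod_cast h4.trans h5.le
      _ = ∑ x ∈ U \ peel G B U, (((B \ U).filter (G.Adj x)).card : ℝ) := by push_cast; rfl
      _ ≤ ∑ _x ∈ U \ peel G B U, D := by
          apply Finset.sum_le_sum
          intro x hx
          have hxB : x ∈ B := hU (Finset.mem_sdiff.1 hx).1
          refine le_trans ?_ (hdeg x hxB)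
          exact_mod_cast Finset.card_le_card
            (Finset.filter_subset_filter _ Finset.sdiff_subset)
      _ = D * ((U \ peel G B U).card : ℝ) := by
          rw [Finset.sum_const, nsmul_eq_mul, mul_comm]
  have h6 : ((U \ peel G B U).card : ℝ) = U.card - (peel G B U).card := by
    rw [Finset.card_sdiff_of_subset (peel_subset G B U),
      Nat.cast_sub (Finset.card_le_card (peel_subset G B U))]
  rw [h6] at h3
  nlinarith [h1.trans h3]

theorem peelIter_card {G : SimpleGraph V} {B U : Finset V} {ε D : ℝ} (hD : 0 < D) (hεD : ε ≤ D)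
    (hB : CheegerGE G (B : Set V) ε) (hdeg : ∀ x ∈ B, ((B.filter (G.Adj x)).card : ℝ) ≤ D)
    (hU : U ⊆ B) (hU2 : 2 * U.card ≤ B.card) (t : ℕ) :
    ((peelIter G B U t).card : ℝ) ≤ (1 - ε / D) ^ t * U.card := by
  induction t with
  | zero => simp [peelIter]
  | succ t ih =>
    have hsub := peelIter_subset G B U t
    have h1 := peel_card hB hdeg (hsub.trans hU)
      (le_trans (Nat.mul_le_mul_left 2 (Finset.card_le_card hsub)) hU2)
    have h2 : ((peelIter G B U (t + 1)).card : ℝ) ≤ (1 - ε / D) * (peelIter G B U t).card := by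
      have h3 : (1 - ε / D) = (D - ε) / D := by field_simp
      rw [h3, div_mul_eq_mul_div, le_div_iff₀ hD, mul_comm]
      exact h1
    have h4 : 0 ≤ 1 - ε / D := by
      rw [sub_nonneg, div_le_one hD]
      exact hεD
    calc ((peelIter G B U (t + 1)).card : ℝ) ≤ (1 - ε / D) * (peelIter G B U t).card := h2
      _ ≤ (1 - ε / D) * ((1 - ε / D) ^ t * U.card) := mul_le_mul_of_nonneg_left ih h4
      _ = (1 - ε / D) ^ (t + 1) * U.card := by ring

theorem exists_of_not_mem_peelIter {G : SimpleGraph V} (hG : G.Connected) {B U : Finset V}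
    (t : ℕ) {x : V} (hx : x ∈ U) (hxt : x ∉ peelIter G B U t) :
    ∃ y ∈ B, y ∉ U ∧ G.dist x y ≤ t := by
  induction t generalizing x with
  | zero => exact absurd hx hxt
  | succ t ih =>
    by_cases h : x ∈ peelIter G B U t
    · have h1 : ∃ y ∈ B, G.Adj x y ∧ y ∉ peelIter G B U t := by
        by_contra hcon
        push Not at hcon
        exact hxt (Finset.mem_filter.2 ⟨h, hcon⟩)
      obtain ⟨y, hyB, hxy, hy⟩ := h1
      have hd : G.dist x y = 1 := SimpleGraph.dist_eq_one_iff_adj.2 hxy
      by_cases hyU : y ∈ U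
      · obtain ⟨z, hzB, hzU, hyz⟩ := ih hyU hy
        refine ⟨z, hzB, hzU, ?_⟩
        have := hG.dist_triangle (u := x) (v := y) (w := z)
        omega
      · exact ⟨y, hyB, hyU, by omega⟩
    · obtain ⟨y, h1, h2, h3⟩ := ih hx h
      exact ⟨y, h1, h2, by omega⟩

/-- A nondecreasing integer sequence with small range has few strict increases. -/
theorem card_increases (h : ℕ → ℤ) (n : ℕ) (T : ℤ) (hmono : ∀ i < n, h i ≤ h (i + 1))
    (hlo : -T ≤ h 0) (hhi : h n ≤ T) :
    (((Finset.range n).filter (fun i => h i < h (i + 1))).card : ℤ) ≤ 2 * T := by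
  have key : ∀ m ≤ n, (((Finset.range m).filter (fun i => h i < h (i + 1))).card : ℤ) ≤
      h m - h 0 := by
    intro m
    induction m with
    | zero => intro _; simp
    | succ m ih =>
      intro hm
      have h1 := ih (by omega)
      have h2 := hmono m (by omega)
      rw [Finset.range_add_one, Finset.filter_insert]
      split_ifs with hlt
      · rw [Finset.card_insert_of_notMem (by simp)]
        push_cast
        omega
      · omega
  have := key n le_rfl
  omega

theorem CheegerGE.mono {G : SimpleGraph V} {B : Set V} {ε ε' : ℝ} (h : CheegerGE G B ε)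
    (hε : ε' ≤ ε) : CheegerGE G B ε' := by
  intro S hS hne hcard
  refine le_trans ?_ (h S hS hne hcard)
  exact mul_le_mul_of_nonneg_right hε (Nat.cast_nonneg _)

/-- Geodesics, parametrised from `x` towards `o`. -/
theorem exists_geodesic {G : SimpleGraph V} (hG : G.Connected) (o x : V) :
    ∃ p : ℕ → V, (∀ s ≤ G.dist o x, G.dist (p s) x = s ∧ G.dist o (p s) + s = G.dist o x) ∧
      ∀ s s', s ≤ s' → s' ≤ G.dist o x → G.dist (p s') (p s) = s' - s := by
  obtain ⟨q, hq⟩ := hG.exists_walk_length_eq_dist x o
  rw [SimpleGraph.dist_comm] at hq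
  have h1 : ∀ s s', s ≤ s' → G.dist (q.getVert s) (q.getVert s') ≤ s' - s := by
    intro s s' hs
    have h2 := SimpleGraph.dist_le ((q.drop s).take (s' - s))
    rw [SimpleGraph.Walk.take_length] at h2
    have h3 : (q.drop s).getVert (s' - s) = q.getVert s' := by
      rw [SimpleGraph.Walk.drop_getVert]
      congr 1
      omega
    rw [h3] at h2
    exact h2.trans (min_le_left _ _)
  have h0 : q.getVert 0 = x := q.getVert_zero
  have hlast : q.getVert (G.dist o x) = o := by
    rw [← hq]
    exact q.getVert_length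
  refine ⟨q.getVert, ?_, ?_⟩
  · intro s hs
    have e1 := h1 0 s (Nat.zero_le _)
    have e2 := h1 s (G.dist o x) hs
    rw [h0] at e1
    rw [hlast] at e2
    have e3 := hG.dist_triangle (u := o) (v := q.getVert s) (w := x)
    rw [SimpleGraph.dist_comm (u := q.getVert s) (v := x)] at e3
    rw [SimpleGraph.dist_comm (u := q.getVert s) (v := x),
      SimpleGraph.dist_comm (u := o) (v := q.getVert s)]
    rw [SimpleGraph.dist_comm (u := o) (v := q.getVert s)] at e3
    constructor <;> omega
  · intro s s' hs hs'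
    have e0 := h1 s s' hs
    have e1 := h1 0 s (Nat.zero_le _)
    have e2 := h1 s' (G.dist o x) hs'
    rw [h0] at e1
    rw [hlast] at e2
    have e3 := hG.dist_triangle (u := x) (v := q.getVert s) (w := q.getVert s')
    have e4 := hG.dist_triangle (u := x) (v := q.getVert s') (w := o)
    rw [SimpleGraph.dist_comm (u := x) (v := o)] at e4
    rw [SimpleGraph.dist_comm (u := q.getVert s') (v := q.getVert s)]
    omega

/-- Choice of a good radius `m`. -/
theorem exists_good_radius (b : ℕ → ℝ) (lam : ℝ) (hlam : 0 < lam) (hb : ∀ n, lam ^ n ≤ b n)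
    (R : ℕ) : ∃ m, R ≤ m ∧ ∀ r ≤ R, b (m - r) * lam ^ r ≤ 2 * b m := by
  by_contra hcon
  push Not at hcon
  -- u n = b n / lam ^ n
  obtain ⟨u, hu⟩ : ∃ u : ℕ → ℝ, ∀ n, u n = b n / lam ^ n := ⟨_, fun _ => rfl⟩
  have hu1 : ∀ n, 1 ≤ u n := by
    intro n
    rw [hu, le_div_iff₀ (by positivity)]
    simpa using hb n
  have hdrop : ∀ m, R ≤ m → ∃ r ≤ R, 0 < r ∧ 2 * u m < u (m - r) := by
    intro m hm
    obtain ⟨r, hr, hlt⟩ := hcon m hm
    have hbm : 0 < b m := lt_of_lt_of_le (by positivity) (hb m)
    have hr0 : 0 < r := by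
      rcases Nat.eq_zero_or_pos r with rfl | h
      · simp at hlt
        linarith
      · exact h
    refine ⟨r, hr, hr0, ?_⟩
    rw [hu, hu]
    have hpow : lam ^ m = lam ^ (m - r) * lam ^ r := by
      rw [← pow_add]; congr 1; omega
    rw [hpow, lt_div_iff₀ (by positivity)]
    calc 2 * (b m / (lam ^ (m - r) * lam ^ r)) * lam ^ (m - r) = 2 * b m / lam ^ r := by
          field_simp
      _ < b (m - r) := by
          rw [div_lt_iff₀ (by positivity)]
          exact hlt
  obtain ⟨U, hU⟩ : ∃ U : ℝ, ∀ n < R, u n ≤ U := by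
    refine ⟨∑ n ∈ Finset.range R, u n, ?_⟩
    intro n hn
    exact Finset.single_le_sum (f := u) (fun i _ => le_trans zero_le_one (hu1 i))
      (Finset.mem_range.2 hn)
  have hU0 : ∀ m, u m ≤ U := by
    intro m
    induction m using Nat.strong_induction_on with
    | _ m ih =>
      rcases Nat.lt_or_ge m R with h | h
      · exact hU m h
      · obtain ⟨r, hr, hr0, hlt⟩ := hdrop m h
        have h1 := ih (m - r) (by omega)
        have h2 := hu1 m
        linarith
  have hUs : ∀ s m, R * s ≤ m → u m ≤ U / 2 ^ s := by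
    intro s
    induction s with
    | zero => intro m _; simpa using hU0 m
    | succ s ih =>
      intro m hm
      rw [Nat.mul_succ] at hm
      obtain ⟨r, hr, hr0, hlt⟩ := hdrop m (by omega)
      have h1 := ih (m - r) (by omega)
      rw [pow_succ, ← div_div]
      linarith
  obtain ⟨s, hs⟩ := pow_unbounded_of_one_lt U (one_lt_two)
  have h1 := hUs s (R * s) le_rfl
  have h2 := hu1 (R * s)
  have h3 : U / 2 ^ s < 1 := by
    rw [div_lt_one (by positivity)]
    exact hs
  linarith


theorem ball_finite {V : Type*} {G : SimpleGraph V} (hG : G.Connected)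
    (hlf : ∀ v, (G.neighborSet v).Finite) (v : V) (r : ℕ) : (gball G v r).Finite := by
  induction r with
  | zero =>
    apply (Set.finite_singleton v).subset
    intro x hx
    have hx' : G.dist v x = 0 := Nat.le_zero.1 hx
    exact ((hG.dist_eq_zero_iff).1 hx').symm
  | succ r ih =>
    apply (ih.union (ih.biUnion (fun x _ => hlf x))).subset
    intro x hx
    by_cases h : G.dist v x ≤ r
    · exact Or.inl h
    · right
      have hx' : G.dist v x ≤ r + 1 := hx
      obtain ⟨p, hp1, _⟩ := exists_geodesic hG v x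
      have e1 := hp1 1 (by omega)
      refine Set.mem_biUnion (show p 1 ∈ gball G v r from ?_) ?_
      · show G.dist v (p 1) ≤ r
        omega
      · exact SimpleGraph.dist_eq_one_iff_adj.1 e1.1


end Pool.Agent.XBL
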