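import Pool.Agent.XBL.Types
import Pool.Agent.XBL.Transitive

/-!
# Cayley graphs and regular languages of geodesics
-/

set_option autoImplicit false

open scoped Classical Topology
open Filter

namespace Pool.Agent.XBL

variable {Γ : Type*} [Group Γ]

/-- The Cayley graph of `Γ` with respect to the (symmetric) set `S`: different elements `g, h` are
adjacent if `h = g * s` for some `s ∈ S`. -/
def cayley (S : Finset Γ) (hS : ∀ s ∈ S, s⁻¹ ∈ S) : SimpleGraph Γ where
  Adj g h := g ≠ h ∧ g⁻¹ * h ∈ S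
  symm := ⟨fun g h hgh => ⟨hgh.1.symm, by have := hS _ hgh.2; simpa using this⟩⟩
  loopless := ⟨fun g hg => hg.1 rfl⟩

/-- The element of `Γ` represented by a word in the generators. -/
def wordValue {S : Finset Γ} (w : List S) : Γ := (w.map Subtype.val).prod

@[simp] theorem wordValue_nil {S : Finset Γ} : wordValue ([] : List S) = 1 := rfl

theorem wordValue_append {S : Finset Γ} (u v : List S) :
    wordValue (u ++ v) = wordValue u * wordValue v := by
  simp [wordValue]

theorem wordValue_cons {S : Finset Γ} (s : S) (v : List S) :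
    wordValue (s :: v) = s.1 * wordValue v := by
  simp [wordValue]

theorem cayley_adj {S : Finset Γ} {hS : ∀ s ∈ S, s⁻¹ ∈ S} (g : Γ) {s : Γ} (hs : s ∈ S)
    (hs1 : s ≠ 1) : (cayley S hS).Adj g (g * s) :=
  ⟨fun h => hs1 (by simpa using h), by simpa using hs⟩

theorem cayley_reachable {S : Finset Γ} {hS : ∀ s ∈ S, s⁻¹ ∈ S} (w : List S) :
    ∀ g : Γ, (cayley S hS).Reachable g (g * wordValue w) := by
  induction w with
  | nil => intro g; simp
  | cons s w ih =>
    intro g
    rw [wordValue_cons, ← mul_assoc]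
    refine SimpleGraph.Reachable.trans ?_ (ih (g * s.1))
    by_cases h : s.1 = 1
    · rw [h, mul_one]
    · exact (cayley_adj g s.2 h).reachable

theorem cayley_connected {S : Finset Γ} {hS : ∀ s ∈ S, s⁻¹ ∈ S}
    (h : ∀ g : Γ, ∃ w : List S, wordValue w = g) : (cayley S hS).Connected := by
  have : Nonempty Γ := ⟨1⟩
  refine ⟨fun g k => ?_⟩
  obtain ⟨w, hw⟩ := h (g⁻¹ * k)
  have h1 := cayley_reachable (hS := hS) w g
  rw [hw, mul_inv_cancel_left] at h1
  exact h1

theorem cayley_dist_le {S : Finset Γ} {hS : ∀ s ∈ S, s⁻¹ ∈ S} (hG : (cayley S hS).Connected)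
    (w : List S) : ∀ g : Γ, (cayley S hS).dist g (g * wordValue w) ≤ w.length := by
  induction w with
  | nil => intro g; simp
  | cons s w ih =>
    intro g
    rw [wordValue_cons, ← mul_assoc]
    have h1 := ih (g * s.1)
    have h2 : (cayley S hS).dist g (g * s.1) ≤ 1 := by
      by_cases h : s.1 = 1
      · rw [h, mul_one]; simp
      · exact (SimpleGraph.dist_eq_one_iff_adj.2 (cayley_adj g s.2 h)).le
    have h3 := hG.dist_triangle (u := g) (v := g * s.1) (w := g * s.1 * wordValue w)
    rw [List.length_cons]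
    omega

theorem cayley_neighborSet {S : Finset Γ} {hS : ∀ s ∈ S, s⁻¹ ∈ S} (v : Γ) :
    ((cayley S hS).neighborSet v).Finite ∧ ((cayley S hS).neighborSet v).ncard ≤ S.card := by
  have h1 : (cayley S hS).neighborSet v ⊆ ((S.image (fun s => v * s) : Finset Γ) : Set Γ) := by
    intro x hx
    have hx' : v ≠ x ∧ v⁻¹ * x ∈ S := hx
    rw [Finset.coe_image]
    exact ⟨v⁻¹ * x, hx'.2, by simp⟩
  refine ⟨(Finset.finite_toSet _).subset h1, ?_⟩
  have h2 := Set.ncard_le_ncard h1 (Finset.finite_toSet _)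
  rw [Set.ncard_coe_finset] at h2
  exact h2.trans Finset.card_image_le

/-- Cayley graphs are vertex-transitive. -/
theorem cayley_transitive {S : Finset Γ} {hS : ∀ s ∈ S, s⁻¹ ∈ S} :
    VertexTransitive (cayley S hS) := by
  intro u v
  refine ⟨⟨Equiv.mulLeft (v * u⁻¹), ?_⟩, by simp⟩
  intro a b
  simp only [cayley, Equiv.coe_mulLeft]
  have h1 : (v * u⁻¹ * a)⁻¹ * (v * u⁻¹ * b) = a⁻¹ * b := by group
  rw [h1]
  simp

/-- Every prefix of a word of a regular language can be completed by a short word. -/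
theorem exists_short_completion {α : Type*} {σ : Type} [Fintype σ] (M : DFA α σ) (w : List α)
    (h : ∃ v, w ++ v ∈ M.accepts) :
    ∃ v, w ++ v ∈ M.accepts ∧ v.length ≤ Fintype.card σ := by
  have hP : ∃ n, ∃ v : List α, v.length = n ∧ w ++ v ∈ M.accepts := by
    obtain ⟨v, hv⟩ := h
    exact ⟨_, v, rfl, hv⟩
  obtain ⟨v, hv1, hv2⟩ := Nat.find_spec hP
  refine ⟨v, hv2, ?_⟩
  by_contra hcon
  push Not at hcon
  obtain ⟨q, a, b, c, hx, hlen, hb, h1, h2, h3⟩ :=
    M.evalFrom_split (s := M.eval w) (t := M.evalFrom (M.eval w) v) hcon.le rfl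
  have hlt : (a ++ c).length < Nat.find hP := by
    rw [← hv1, hx]
    have : 0 < b.length := List.length_pos_of_ne_nil hb
    simp only [List.length_append]
    omega
  apply Nat.find_min hP hlt
  refine ⟨a ++ c, rfl, ?_⟩
  rw [DFA.mem_accepts] at hv2 ⊢
  rw [DFA.eval, DFA.evalFrom_of_append] at hv2 ⊢
  rw [DFA.evalFrom_of_append]
  rw [DFA.eval] at h1 h3
  rw [h1, h3]
  exact hv2

section words

variable {S : Finset Γ} {hS : ∀ s ∈ S, s⁻¹ ∈ S} {L : Language S}

/-- The tree of prefixes of a language. -/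
def Prefixes (L : Language S) : Type _ := {w : List S // ∃ v, w ++ v ∈ L}

/-- Removal of the last letter. -/
def Prefixes.par (t : Prefixes L) : Prefixes L :=
  ⟨t.1.dropLast, by
    obtain ⟨v, hv⟩ := t.2
    rcases List.eq_nil_or_concat t.1 with h | ⟨u, a, h⟩
    · refine ⟨v, ?_⟩
      rw [h] at hv ⊢
      exact hv
    · refine ⟨a :: v, ?_⟩
      rw [h] at hv ⊢
      simpa using hv⟩

/-- Length. -/
def Prefixes.depth (t : Prefixes L) : ℕ := t.1.length

/-- Value. -/
def Prefixes.pt (t : Prefixes L) : Γ := wordValue t.1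

theorem geodesic_of_mem (hG : (cayley S hS).Connected)
    (hgeo : ∀ w ∈ L, (cayley S hS).dist 1 (wordValue w) = w.length) (t : Prefixes L) :
    (cayley S hS).dist 1 t.pt = t.depth := by
  obtain ⟨w, v, hv⟩ := t
  show (cayley S hS).dist 1 (wordValue w) = w.length
  have h1 := hgeo _ hv
  have h2 := cayley_dist_le hG w 1
  have h3 := cayley_dist_le hG v (wordValue w)
  have h4 := hG.dist_triangle (u := 1) (v := wordValue w) (w := wordValue w * wordValue v)
  rw [wordValue_append, List.length_append] at h1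
  rw [one_mul] at h2
  omega

theorem tree_of_words (hG : (cayley S hS).Connected)
    (hgeo : ∀ w ∈ L, (cayley S hS).dist 1 (wordValue w) = w.length)
    (honto : ∀ g : Γ, ∃ w ∈ L, wordValue w = g) (K : ℕ)
    (hK : ∀ g : Γ, {w ∈ L | wordValue w = g}.Finite ∧ {w ∈ L | wordValue w = g}.ncard ≤ K)
    {σ : Type} [Fintype σ] (M : DFA S σ) (hM : M.accepts = L) :
    ∃ K' : ℕ, TreeOfGeodesics (cayley S hS) 1 (Prefixes.par (L := L)) Prefixes.depth
      Prefixes.pt K' := by
  obtain ⟨W, hW⟩ : ∃ W : Finset (List S), ∀ v : List S, v ∈ W ↔ v.length ≤ Fintype.card σ :=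
    ⟨(List.finite_length_le S (Fintype.card σ)).toFinset, fun v => by simp⟩
  refine ⟨W.card * K, ?_⟩
  constructor
  · obtain ⟨w, hw, _⟩ := honto 1
    refine ⟨⟨[], w, by simpa using hw⟩, rfl, ?_⟩
    rintro ⟨u, hu⟩ h
    have h' : u.length = 0 := h
    rw [List.length_eq_zero_iff] at h'
    subst h'
    rfl
  · intro t ht
    have hd : t.depth = t.par.depth + 1 := by
      have h0 : t.1.length ≠ 0 := ht
      show t.1.length = t.1.dropLast.length + 1
      rw [List.length_dropLast]
      omega
    refine ⟨?_, hd⟩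
    have hne : t.1 ≠ [] := fun h => ht (by show t.1.length = 0; rw [h]; rfl)
    have h1 : t.pt = t.par.pt * (t.1.getLast hne).1 := by
      show wordValue t.1 = wordValue t.1.dropLast * (t.1.getLast hne).1
      conv_lhs => rw [← List.dropLast_append_getLast hne]
      rw [wordValue_append]
      congr 1
      simp [wordValue]
    rw [h1]
    refine cayley_adj _ (t.1.getLast hne).2 ?_
    intro h2
    rw [h2, mul_one] at h1
    have h3 := geodesic_of_mem hG hgeo t
    have h4 := geodesic_of_mem hG hgeo t.par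
    rw [h1] at h3
    omega
  · exact geodesic_of_mem hG hgeo
  · intro g
    obtain ⟨w, hw, hwg⟩ := honto g
    exact ⟨⟨w, [], by simpa using hw⟩, hwg⟩
  · intro g
    -- split according to a short completion
    have hfin : ∀ v : List S, {t : Prefixes L | t.pt = g ∧ t.1 ++ v ∈ L}.Finite ∧
        {t : Prefixes L | t.pt = g ∧ t.1 ++ v ∈ L}.ncard ≤ K := by
      intro v
      have hinj : Set.InjOn (fun t : Prefixes L => t.1 ++ v)
          {t : Prefixes L | t.pt = g ∧ t.1 ++ v ∈ L} := by
        intro t _ t' _ h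
        exact Subtype.ext (List.append_cancel_right h)
      have himg : (fun t : Prefixes L => t.1 ++ v) '' {t : Prefixes L | t.pt = g ∧ t.1 ++ v ∈ L} ⊆
          {w ∈ L | wordValue w = g * wordValue v} := by
        rintro _ ⟨t, ⟨ht1, ht2⟩, rfl⟩
        refine ⟨ht2, ?_⟩
        show wordValue (t.1 ++ v) = g * wordValue v
        rw [wordValue_append]
        congr 1
      obtain ⟨h1, h2⟩ := hK (g * wordValue v)
      refine ⟨Set.Finite.of_finite_image (h1.subset himg) hinj, ?_⟩
      rw [← hinj.ncard_image]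
      exact (Set.ncard_le_ncard himg h1).trans h2
    obtain ⟨F, hF⟩ : ∃ F : List S → Finset (Prefixes L), ∀ v, F v = (hfin v).1.toFinset :=
      ⟨_, fun _ => rfl⟩
    have hsub : {t : Prefixes L | t.pt = g} ⊆ ((W.biUnion F : Finset (Prefixes L)) : Set _) := by
      intro t ht
      have ht' : t.pt = g := ht
      obtain ⟨v, hv1, hv2⟩ := exists_short_completion M t.1 (by rw [hM]; exact t.2)
      rw [hM] at hv1
      rw [Finset.mem_coe, Finset.mem_biUnion]
      refine ⟨v, (hW v).2 hv2, ?_⟩
      rw [hF, Set.Finite.mem_toFinset]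
      exact ⟨ht', hv1⟩
    refine ⟨(Finset.finite_toSet _).subset hsub, ?_⟩
    have h1 := Set.ncard_le_ncard hsub (Finset.finite_toSet _)
    rw [Set.ncard_coe_finset] at h1
    refine h1.trans (Finset.card_biUnion_le_card_mul W F K ?_)
    intro v _
    rw [hF, ← Set.ncard_eq_toFinset_card _ (hfin v).1]
    exact (hfin v).2

theorem types_of_words {σ : Type} [Fintype σ] (M : DFA S σ) (hM : M.accepts = L) :
    TypesDetermine (Prefixes.par (L := L)) Prefixes.depth (fun t => M.eval t.1) := by
  have hL : ∀ w : List S, w ∈ L ↔ M.evalFrom M.start w ∈ M.accept := by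
    intro w
    rw [← hM]
    rfl
  have key : ∀ (t : Prefixes L) (c : σ),
      (childrenOfType (Prefixes.par (L := L)) Prefixes.depth (fun t => M.eval t.1) t c).ncard =
        {a : S | M.step (M.eval t.1) a = c ∧ ∃ v, M.evalFrom c v ∈ M.accept}.ncard := by
    intro t c
    have hmem : ∀ a : S, M.step (M.eval t.1) a = c → (∃ v, M.evalFrom c v ∈ M.accept) →
        ∃ v, (t.1 ++ [a]) ++ v ∈ L := by
      rintro a ha ⟨v, hv⟩
      refine ⟨v, (hL _).2 ?_⟩
      rw [DFA.evalFrom_of_append, DFA.evalFrom_append_singleton]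
      rw [DFA.eval] at ha
      rw [ha]
      exact hv
    symm
    refine Set.ncard_congr (fun a ha => (⟨t.1 ++ [a], hmem a ha.1 ha.2⟩ : Prefixes L)) ?_ ?_ ?_
    · rintro a ⟨h1, h2⟩
      refine ⟨?_, ?_, ?_⟩
      · show (t.1 ++ [a]).length ≠ 0
        simp
      · apply Subtype.ext
        show (t.1 ++ [a]).dropLast = t.1
        simp
      · show M.eval (t.1 ++ [a]) = c
        rw [DFA.eval_append_singleton]
        exact h1
    · intro a b ha hb hab
      have := congrArg Subtype.val hab
      simpa using this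
    · rintro s ⟨h1, h2, h3⟩
      have hne : s.1 ≠ [] := fun h => h1 (by show s.1.length = 0; rw [h]; rfl)
      have h4 : s.1.dropLast = t.1 := congrArg Subtype.val h2
      have h5 : t.1 ++ [s.1.getLast hne] = s.1 := by
        rw [← h4]
        exact List.dropLast_append_getLast hne
      have h3' : M.eval s.1 = c := h3
      refine ⟨s.1.getLast hne, ⟨?_, ?_⟩, ?_⟩
      · rw [← DFA.eval_append_singleton, h5]
        exact h3'
      · obtain ⟨v, hv⟩ := s.2
        refine ⟨v, ?_⟩
        have hv' := (hL _).1 hv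
        rw [DFA.evalFrom_of_append] at hv'
        rw [DFA.eval] at h3'
        rw [h3'] at hv'
        exact hv'
      · exact Subtype.ext h5
  intro t t' htt c
  rw [key, key]
  have : M.eval t.1 = M.eval t'.1 := htt
  rw [this]

end words

/-- **Regular languages of geodesics.** -/
theorem regular_geodesics [Infinite Γ] (S : Finset Γ) (hS : ∀ s ∈ S, s⁻¹ ∈ S) (L : Language S)
    (hL : L.IsRegular) (hgeo : ∀ w ∈ L, (cayley S hS).dist 1 (wordValue w) = w.length)
    (honto : ∀ g : Γ, ∃ w ∈ L, wordValue w = g) (K : ℕ)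
    (hK : ∀ g : Γ, {w ∈ L | wordValue w = g}.Finite ∧ {w ∈ L | wordValue w = g}.ncard ≤ K)
    (ε : ℝ) (hε : 0 < ε) :
    ∃ N : ℕ, ∀ l : ℕ, ∃ m, l ≤ m ∧
      {n | CheegerGE (cayley S hS) (gball (cayley S hS) 1 n) ε ∧ m ≤ n + l ∧ n ≤ m}.ncard ≤ N := by
  have hG : (cayley S hS).Connected :=
    cayley_connected (fun g => by obtain ⟨w, _, hw⟩ := honto g; exact ⟨w, hw⟩)
  obtain ⟨σ, _, M, hM⟩ := hL
  obtain ⟨K', hp⟩ := tree_of_words hG hgeo honto K hK M hM
  have h := finite_types (inferInstance : Infinite Γ) hG S.card cayley_neighborSet 1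
    (Prefixes.par (L := L)) Prefixes.depth Prefixes.pt K' hp (fun t => M.eval t.1)
    (types_of_words M hM) 1
    (fun v r => by rw [cayley_transitive.ncard_gball hG 1 v r, one_mul]) ε hε
  rw [cayley_transitive.expRadii_eq hG 1 ε] at h
  exact h

end Pool.Agent.XBL
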