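import Pool.Agent.XBL.Setup

/-!
# Covering criterion for non-expansion of balls
-/

set_option autoImplicit false

open scoped Classical Topology
open Filter

namespace Pool.Agent.XBL

/-- A nondecreasing sequence of range at most `2 t` jumps over few windows of length `j`. -/
theorem card_window (h : ℕ → ℤ) (n j : ℕ) (T : ℕ) (hmono : ∀ i < n, h i ≤ h (i + 1))
    (hlo : -(T : ℤ) ≤ h 0) (hhi : h n ≤ T) (Λ : Finset ℕ) (hΛ : ∀ l ∈ Λ, l + j ≤ n) :
    (Λ.filter (fun l => h l < h (l + j))).card ≤ j * (2 * T) := by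
  have h1 := card_increases h n T hmono hlo hhi
  have h1' : ((Finset.range n).filter (fun i => h i < h (i + 1))).card ≤ 2 * T := by
    zify; exact h1
  have hsub : Λ.filter (fun l => h l < h (l + j)) ⊆
      (Finset.range j).biUnion (fun i => Λ.filter (fun l => h (l + i) < h (l + i + 1))) := by
    intro l hl
    rw [Finset.mem_filter] at hl
    obtain ⟨hlΛ, hlt⟩ := hl
    by_contra hcon
    rw [Finset.mem_biUnion] at hcon
    push Not at hcon
    have key : ∀ i ≤ j, h (l + i) ≤ h l := by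
      intro i
      induction i with
      | zero => intro _; exact le_rfl
      | succ i ih =>
        intro hi
        have h2 := hcon i (Finset.mem_range.2 (by omega))
        rw [Finset.mem_filter] at h2
        push Not at h2
        exact (h2 hlΛ).trans (ih (by omega))
    exact absurd hlt (not_lt.2 (key j le_rfl))
  refine (Finset.card_le_card hsub).trans ?_
  have h2 : ((Finset.range j).biUnion
      (fun i => Λ.filter (fun l => h (l + i) < h (l + i + 1)))).card ≤
      (Finset.range j).card * (2 * T) := by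
    apply Finset.card_biUnion_le_card_mul
    intro i hi
    rw [Finset.mem_range] at hi
    refine le_trans ?_ h1'
    apply Finset.card_le_card_of_injOn (fun l => l + i)
    · intro l hl
      rw [Finset.mem_coe, Finset.mem_filter] at hl
      rw [Finset.mem_coe, Finset.mem_filter, Finset.mem_range]
      have := hΛ l hl.1
      refine ⟨?_, hl.2⟩
      show l + i < n
      omega
    · intro a _ b _ hab
      simpa using hab
  rwa [Finset.card_range] at h2

/-- **Covering criterion.** If geodesics to the points of a finite set `X` are covered efficiently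
at the levels `l ∈ Λ`, and all balls of the radii `m - l` are `ε`-expanders, then `Λ` is small. -/
theorem criterion' (D : ℕ) (ε K : ℝ) (hε : 0 < ε) (hK : 1 ≤ K) : ∃ N : ℕ,
    ∀ (V : Type*) (G : SimpleGraph V), Infinite V → G.Connected →
      (∀ v, (G.neighborSet v).Finite ∧ (G.neighborSet v).ncard ≤ D) →
      (expRadii G ε).Infinite →
      ∀ (m : ℕ) (Λ : Finset ℕ) (X : Finset V) (γ : V → ℕ → V) (Q : ℕ → Finset V),
        X.Nonempty →
        (∀ l ∈ Λ, m - l ∈ expRadii G ε) →
        (∀ x ∈ X, G.dist (γ x 0) x ≤ m ∧ γ x (G.dist (γ x 0) x) = x ∧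
          (∀ l l', l ≤ l' → l' ≤ G.dist (γ x 0) x → G.dist (γ x l) (γ x l') = l' - l)) →
        (∀ l ∈ Λ, ((Q l).card : ℝ) * maxBall G (m - l) ≤ K * X.card) →
        (∀ x ∈ X, (Λ.card : ℝ) ≤
          K * (Λ.filter (fun l => l ≤ G.dist (γ x 0) x ∧ γ x l ∈ Q l)).card) →
        Λ.card ≤ N := by
  -- constants
  obtain ⟨D', hD'⟩ : ∃ D' : ℝ, D' = (D : ℝ) + 1 := ⟨_, rfl⟩
  have hD'1 : 1 ≤ D' := by
    rw [hD']
    have : (0 : ℝ) ≤ D := Nat.cast_nonneg _
    linarith
  have hD'0 : 0 < D' := by linarith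
  obtain ⟨ε', hε'⟩ : ∃ ε' : ℝ, ε' = min ε 1 := ⟨_, rfl⟩
  have hε'0 : 0 < ε' := by rw [hε']; exact lt_min hε one_pos
  have hε'D : ε' ≤ D' := by rw [hε']; exact (min_le_right _ _).trans hD'1
  have hε'ε : ε' ≤ ε := by rw [hε']; exact min_le_left _ _
  have hK0 : 0 < K := by linarith
  obtain ⟨j, hj⟩ : ∃ j : ℕ, 8 * K ^ 2 < (1 + ε' / D') ^ j :=
    pow_unbounded_of_one_lt _ (by
      have : 0 < ε' / D' := by positivity
      linarith)
  obtain ⟨θ, hθ⟩ : ∃ θ, θ = 1 - ε' / D' := ⟨_, rfl⟩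
  have hθ0 : 0 ≤ θ := by
    rw [hθ, sub_nonneg, div_le_one hD'0]
    exact hε'D
  have hθ1 : θ < 1 := by
    rw [hθ]
    have : 0 < ε' / D' := by positivity
    linarith
  obtain ⟨t, ht⟩ : ∃ t : ℕ, θ ^ t < 1 / (4 * K ^ 2 * ((D : ℝ) + 1) ^ j) :=
    exists_pow_lt_of_lt_one (by positivity) hθ1
  refine ⟨⌈2 * K * (j * (2 * t) * ((D : ℝ) + 1) ^ t + j)⌉₊, ?_⟩
  intro V G hinf hG hdeg hRinf m Λ X γ Q hXne hΛR hgeo hcov hmany
  obtain ⟨Bf, b, S⟩ := exists_setup hG D hdeg
  have hBf := S.mem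
  have hRinf' : (expRadii G ε').Infinite := hRinf.mono (expRadii_mono hε'ε)
  have hgrow := S.growth hinf hε'0 hRinf'
  rw [← hD'] at hgrow
  rcases Λ.eq_empty_or_nonempty with hΛe | hΛne
  · rw [hΛe]; simp
  obtain ⟨x₀, hx₀⟩ := hXne
  have hX0 : (0 : ℝ) < X.card := by
    exact_mod_cast Finset.card_pos.2 ⟨x₀, hx₀⟩
  -- facts on the geodesics
  have hdx : ∀ x ∈ X, ∀ l, l ≤ G.dist (γ x 0) x → G.dist (γ x l) x = G.dist (γ x 0) x - l := by
    intro x hx l hl
    obtain ⟨h1, h2, h3⟩ := hgeo x hx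
    have h5 := h3 l _ hl le_rfl
    rwa [h2] at h5
  let A : V → V → ℕ → Finset V := fun v w r =>
    (Bf v r).filter (fun x => G.dist v x = j + G.dist w x)
  let Deep : V → V → ℕ → Finset V := fun v w r => peelIter G (Bf v r) (A v w r) t
  have hA : ∀ v w r, (A v w r).card ≤ b (r - j) := by
    intro v w r
    refine (Finset.card_le_card ?_).trans (S.le_b w (r - j))
    intro x hx
    rw [Finset.mem_filter, hBf] at hx
    rw [hBf]
    omega
  let Sm : ℕ → V → Prop := fun l v => (Bf v (m - l)).card ≤ 2 * b (m - l - j)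
  have hDeep : ∀ l ∈ Λ, ∀ v w, ¬ Sm l v →
      ((Deep v w (m - l)).card : ℝ) ≤ θ ^ t * b (m - l) := by
    intro l hl v w hsm
    have h2 : 2 * (A v w (m - l)).card ≤ (Bf v (m - l)).card := by
      have h3 := hA v w (m - l)
      have h4 : ¬ (Bf v (m - l)).card ≤ 2 * b (m - l - j) := hsm
      omega
    have hexp : CheegerGE G ((Bf v (m - l) : Finset V) : Set V) ε' := by
      rw [S.coe]
      exact (hΛR l hl v).mono hε'ε
    have h6 := peelIter_card (G := G) (B := Bf v (m - l)) (U := A v w (m - l)) hD'0 hε'D hexp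
      (fun x _ => by rw [hD']; exact S.deg _ x) (Finset.filter_subset _ _) h2 t
    rw [← hθ] at h6
    refine h6.trans (mul_le_mul_of_nonneg_left ?_ (pow_nonneg hθ0 t))
    have h8 : (A v w (m - l)).card ≤ b (m - l) :=
      (Finset.card_le_card (Finset.filter_subset _ _)).trans (S.le_b v _)
    exact_mod_cast h8
  -- pointwise count
  have hcount : ∀ x ∈ X, (Λ.filter (fun l => l ≤ G.dist (γ x 0) x ∧ γ x l ∈ Q l)).card ≤
      j + j * (2 * t) * (D + 1) ^ t +
      (Λ.filter (fun l => l + j ≤ G.dist (γ x 0) x ∧ γ x l ∈ Q l ∧ Sm l (γ x l))).card +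
      (Λ.filter (fun l => l + j ≤ G.dist (γ x 0) x ∧ γ x l ∈ Q l ∧ ¬ Sm l (γ x l) ∧
        x ∈ Deep (γ x l) (γ x (l + j)) (m - l))).card := by
    intro x hx
    obtain ⟨h1, h2, h3⟩ := hgeo x hx
    obtain ⟨d, hd⟩ : ∃ d, d = G.dist (γ x 0) x := ⟨_, rfl⟩
    rw [← hd] at h1 h2 h3 ⊢
    have hdx' : ∀ l, l ≤ d → G.dist (γ x l) x = d - l := by
      intro l hl
      rw [hd] at hl ⊢
      exact hdx x hx l hl
    have hsplit : Λ.filter (fun l => l ≤ d ∧ γ x l ∈ Q l) ⊆
        Λ.filter (fun l => l ≤ d ∧ ¬ l + j ≤ d) ∪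
        (Λ.filter (fun l => l + j ≤ d)).filter
          (fun l => ¬ x ∈ Deep (γ x l) (γ x (l + j)) (m - l)) ∪
        Λ.filter (fun l => l + j ≤ d ∧ γ x l ∈ Q l ∧ Sm l (γ x l)) ∪
        Λ.filter (fun l => l + j ≤ d ∧ γ x l ∈ Q l ∧ ¬ Sm l (γ x l) ∧
          x ∈ Deep (γ x l) (γ x (l + j)) (m - l)) := by
      intro l hl
      rw [Finset.mem_filter] at hl
      simp only [Finset.mem_union, Finset.mem_filter]
      tauto
    have hc1 : (Λ.filter (fun l => l ≤ d ∧ ¬ l + j ≤ d)).card ≤ j := by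
      have : Λ.filter (fun l => l ≤ d ∧ ¬ l + j ≤ d) ⊆ Finset.Icc (d + 1 - j) d := by
        intro l hl
        rw [Finset.mem_filter] at hl
        rw [Finset.mem_Icc]
        omega
      refine (Finset.card_le_card this).trans ?_
      rw [Nat.card_Icc]
      omega
    have hc2 : ((Λ.filter (fun l => l + j ≤ d)).filter
          (fun l => ¬ x ∈ Deep (γ x l) (γ x (l + j)) (m - l))).card ≤
        j * (2 * t) * (D + 1) ^ t := by
      have hsub : (Λ.filter (fun l => l + j ≤ d)).filter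
            (fun l => ¬ x ∈ Deep (γ x l) (γ x (l + j)) (m - l)) ⊆
          (Bf x t).biUnion (fun y => (Λ.filter (fun l => l + j ≤ d)).filter (fun l =>
            (G.dist (γ x l) y : ℤ) + l - d <
              (G.dist (γ x (l + j)) y : ℤ) + (l + j : ℕ) - d)) := by
        intro l hl
        rw [Finset.mem_filter, Finset.mem_filter] at hl
        obtain ⟨⟨hlΛ, hld⟩, hnot⟩ := hl
        have e1 := hdx' l (by omega)
        have e2 := hdx' (l + j) (by omega)
        have e3 := h3 l (l + j) (by omega) (by omega)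
        have hxA : x ∈ A (γ x l) (γ x (l + j)) (m - l) := by
          rw [Finset.mem_filter, hBf]
          constructor <;> omega
        obtain ⟨y, hyB, hyA, hxy⟩ := exists_of_not_mem_peelIter hG t hxA hnot
        rw [Finset.mem_biUnion]
        refine ⟨y, (hBf _ _ _).2 hxy, ?_⟩
        rw [Finset.mem_filter, Finset.mem_filter]
        refine ⟨⟨hlΛ, hld⟩, ?_⟩
        have hne : G.dist (γ x l) y ≠ j + G.dist (γ x (l + j)) y := by
          intro h
          exact hyA (Finset.mem_filter.2 ⟨hyB, h⟩)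
        have e4 := hG.dist_triangle (u := γ x l) (v := γ x (l + j)) (w := y)
        push_cast
        omega
      refine (Finset.card_le_card hsub).trans ?_
      have hBx : (Bf x t).card ≤ (D + 1) ^ t := (S.le_b x t).trans (S.b_le t)
      have h5 : ((Bf x t).biUnion (fun y => (Λ.filter (fun l => l + j ≤ d)).filter (fun l =>
            (G.dist (γ x l) y : ℤ) + l - d <
              (G.dist (γ x (l + j)) y : ℤ) + (l + j : ℕ) - d))).card ≤
          (Bf x t).card * (j * (2 * t)) := by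
        apply Finset.card_biUnion_le_card_mul
        intro y hy
        rw [hBf] at hy
        apply card_window (fun l => (G.dist (γ x l) y : ℤ) + l - d) d j t
        · intro i hi
          have e3 := h3 i (i + 1) (by omega) (by omega)
          have e4 := hG.dist_triangle (u := γ x i) (v := γ x (i + 1)) (w := y)
          push_cast
          omega
        · have e1 := hdx' 0 (by omega)
          have e4 := hG.dist_triangle (u := γ x 0) (v := y) (w := x)
          rw [SimpleGraph.dist_comm (u := y) (v := x)] at e4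
          push_cast
          omega
        · have e1 := hdx' d le_rfl
          have e4 := hG.dist_triangle (u := γ x d) (v := x) (w := y)
          omega
        · intro l hl
          exact (Finset.mem_filter.1 hl).2
      refine h5.trans ?_
      calc (Bf x t).card * (j * (2 * t)) ≤ (D + 1) ^ t * (j * (2 * t)) :=
            Nat.mul_le_mul_right _ hBx
        _ = j * (2 * t) * (D + 1) ^ t := by ring
    have h6 := (Finset.card_le_card hsplit).trans (Finset.card_union_le _ _)
    have h7 := Finset.card_union_le (Λ.filter (fun l => l ≤ d ∧ ¬ l + j ≤ d) ∪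
        (Λ.filter (fun l => l + j ≤ d)).filter
          (fun l => ¬ x ∈ Deep (γ x l) (γ x (l + j)) (m - l)))
        (Λ.filter (fun l => l + j ≤ d ∧ γ x l ∈ Q l ∧ Sm l (γ x l)))
    have h8 := Finset.card_union_le (Λ.filter (fun l => l ≤ d ∧ ¬ l + j ≤ d))
        ((Λ.filter (fun l => l + j ≤ d)).filter
          (fun l => ¬ x ∈ Deep (γ x l) (γ x (l + j)) (m - l)))
    omega
  -- level counts
  have hsmall : ∀ l ∈ Λ, ((X.filter (fun x => l + j ≤ G.dist (γ x 0) x ∧ γ x l ∈ Q l ∧
      Sm l (γ x l))).card : ℝ) ≤ X.card / (4 * K) := by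
    intro l hlΛ
    by_cases hlm : l + j ≤ m
    swap
    · have h0 : X.filter (fun x => l + j ≤ G.dist (γ x 0) x ∧ γ x l ∈ Q l ∧
          Sm l (γ x l)) = ∅ := by
        rw [Finset.filter_eq_empty_iff]
        intro x hx h
        have := (hgeo x hx).1
        omega
      rw [h0, Finset.card_empty, Nat.cast_zero]
      positivity
    have hsub : X.filter (fun x => l + j ≤ G.dist (γ x 0) x ∧ γ x l ∈ Q l ∧ Sm l (γ x l)) ⊆
        ((Q l).filter (fun v => Sm l v)).biUnion (fun v => Bf v (m - l)) := by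
      intro x hx
      rw [Finset.mem_filter] at hx
      obtain ⟨hxX, hxd, hxQ, hxS⟩ := hx
      rw [Finset.mem_biUnion]
      refine ⟨γ x l, Finset.mem_filter.2 ⟨hxQ, hxS⟩, ?_⟩
      rw [hBf]
      obtain ⟨h1, h2, h3⟩ := hgeo x hxX
      have := hdx x hxX l (by omega)
      omega
    have h1 : (X.filter (fun x => l + j ≤ G.dist (γ x 0) x ∧ γ x l ∈ Q l ∧
        Sm l (γ x l))).card ≤ (Q l).card * (2 * b (m - l - j)) := by
      refine (Finset.card_le_card hsub).trans ?_
      have h2 : (((Q l).filter (fun v => Sm l v)).biUnion (fun v => Bf v (m - l))).card ≤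
          ((Q l).filter (fun v => Sm l v)).card * (2 * b (m - l - j)) := by
        apply Finset.card_biUnion_le_card_mul
        intro v hv
        exact (Finset.mem_filter.1 hv).2
      exact h2.trans (Nat.mul_le_mul_right _ (Finset.card_le_card (Finset.filter_subset _ _)))
    have h2 : ((X.filter (fun x => l + j ≤ G.dist (γ x 0) x ∧ γ x l ∈ Q l ∧
        Sm l (γ x l))).card : ℝ) ≤
        (Q l).card * (2 * b (m - l - j)) := by exact_mod_cast h1
    have h3 : (8 * K ^ 2) * (b (m - l - j) : ℝ) ≤ b (m - l) := by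
      have h4 := hgrow (m - l - j) j
      rw [show m - l - j + j = m - l by omega] at h4
      exact (mul_le_mul_of_nonneg_right hj.le (Nat.cast_nonneg _)).trans h4
    have h5 := hcov l hlΛ
    rw [← S.eq_max] at h5
    rw [le_div_iff₀ (by positivity)]
    have h6 : (0 : ℝ) ≤ (Q l).card := Nat.cast_nonneg _
    have h7 : ((Q l).card : ℝ) * ((8 * K ^ 2) * (b (m - l - j) : ℝ)) ≤ K * X.card :=
      (mul_le_mul_of_nonneg_left h3 h6).trans h5
    have h8 : K * (((Q l).card : ℝ) * (2 * b (m - l - j)) * (4 * K)) ≤ K * X.card := by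
      calc K * (((Q l).card : ℝ) * (2 * b (m - l - j)) * (4 * K))
          = ((Q l).card : ℝ) * ((8 * K ^ 2) * (b (m - l - j) : ℝ)) := by ring
        _ ≤ K * X.card := h7
    have h9 := le_of_mul_le_mul_left h8 hK0
    exact (mul_le_mul_of_nonneg_right h2 (by positivity)).trans h9
  have hdeepc : ∀ l ∈ Λ, ((X.filter (fun x => l + j ≤ G.dist (γ x 0) x ∧ γ x l ∈ Q l ∧
      ¬ Sm l (γ x l) ∧ x ∈ Deep (γ x l) (γ x (l + j)) (m - l))).card : ℝ) ≤
      X.card / (4 * K) := by
    intro l hlΛ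
    have hsub : X.filter (fun x => l + j ≤ G.dist (γ x 0) x ∧ γ x l ∈ Q l ∧
        ¬ Sm l (γ x l) ∧ x ∈ Deep (γ x l) (γ x (l + j)) (m - l)) ⊆
        ((Q l).filter (fun v => ¬ Sm l v)).biUnion (fun v => (Bf v j).biUnion
          (fun w => Deep v w (m - l))) := by
      intro x hx
      rw [Finset.mem_filter] at hx
      obtain ⟨hxX, hxd, hxQ, hxS, hxD⟩ := hx
      rw [Finset.mem_biUnion]
      refine ⟨γ x l, Finset.mem_filter.2 ⟨hxQ, hxS⟩, ?_⟩
      rw [Finset.mem_biUnion]
      refine ⟨γ x (l + j), ?_, hxD⟩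
      rw [hBf]
      obtain ⟨h1, h2, h3⟩ := hgeo x hxX
      have := h3 l (l + j) (by omega) hxd
      omega
    have h1 : ((((Q l).filter (fun v => ¬ Sm l v)).biUnion (fun v => (Bf v j).biUnion
          (fun w => Deep v w (m - l)))).card : ℝ) ≤
        (Q l).card * (((D : ℝ) + 1) ^ j * (θ ^ t * b (m - l))) := by
      have h2 : ((((Q l).filter (fun v => ¬ Sm l v)).biUnion (fun v => (Bf v j).biUnion
          (fun w => Deep v w (m - l)))).card : ℝ) ≤
          ∑ v ∈ (Q l).filter (fun v => ¬ Sm l v), (((Bf v j).biUnion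
          (fun w => Deep v w (m - l))).card : ℝ) := by
        exact_mod_cast Finset.card_biUnion_le
      refine h2.trans ?_
      have h3 : ∀ v ∈ (Q l).filter (fun v => ¬ Sm l v), (((Bf v j).biUnion
          (fun w => Deep v w (m - l))).card : ℝ) ≤ ((D : ℝ) + 1) ^ j * (θ ^ t * b (m - l)) := by
        intro v hv
        have hv2 := (Finset.mem_filter.1 hv).2
        have h4 : (((Bf v j).biUnion (fun w => Deep v w (m - l))).card : ℝ) ≤
            ∑ w ∈ Bf v j, ((Deep v w (m - l)).card : ℝ) := by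
          exact_mod_cast Finset.card_biUnion_le
        refine h4.trans ?_
        refine (Finset.sum_le_sum (fun w _ => hDeep l hlΛ v w hv2)).trans ?_
        rw [Finset.sum_const, nsmul_eq_mul]
        apply mul_le_mul_of_nonneg_right _ (by positivity)
        have h5 : (Bf v j).card ≤ (D + 1) ^ j := (S.le_b v j).trans (S.b_le j)
        exact_mod_cast h5
      refine (Finset.sum_le_sum h3).trans ?_
      rw [Finset.sum_const, nsmul_eq_mul]
      apply mul_le_mul_of_nonneg_right _ (by positivity)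
      exact_mod_cast Finset.card_le_card (Finset.filter_subset _ _)
    have h5 := hcov l hlΛ
    rw [← S.eq_max] at h5
    have hP : (0 : ℝ) < 4 * K ^ 2 * ((D : ℝ) + 1) ^ j := by positivity
    have h6 : ((D : ℝ) + 1) ^ j * θ ^ t ≤ 1 / (4 * K ^ 2) := by
      have h7 : ((D : ℝ) + 1) ^ j * θ ^ t ≤
          ((D : ℝ) + 1) ^ j * (1 / (4 * K ^ 2 * ((D : ℝ) + 1) ^ j)) :=
        mul_le_mul_of_nonneg_left ht.le (by positivity)
      refine h7.trans (le_of_eq ?_)
      field_simp
    calc ((X.filter (fun x => l + j ≤ G.dist (γ x 0) x ∧ γ x l ∈ Q l ∧ ¬ Sm l (γ x l) ∧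
        x ∈ Deep (γ x l) (γ x (l + j)) (m - l))).card : ℝ)
        ≤ (Q l).card * (((D : ℝ) + 1) ^ j * (θ ^ t * b (m - l))) :=
          le_trans (by exact_mod_cast Finset.card_le_card hsub) h1
      _ = ((Q l).card * b (m - l)) * (((D : ℝ) + 1) ^ j * θ ^ t) := by ring
      _ ≤ (K * X.card) * (1 / (4 * K ^ 2)) :=
          mul_le_mul h5 h6 (by positivity) (by positivity)
      _ = X.card / (4 * K) := by field_simp
  -- total
  have htot : (X.card : ℝ) * (Λ.card / K) ≤ X.card * (j + j * (2 * t) * ((D : ℝ) + 1) ^ t) +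
      Λ.card * (X.card / (2 * K)) := by
    have h1 : (X.card : ℝ) * (Λ.card / K) ≤
        ∑ x ∈ X, ((Λ.filter (fun l => l ≤ G.dist (γ x 0) x ∧ γ x l ∈ Q l)).card : ℝ) := by
      rw [← nsmul_eq_mul, ← Finset.sum_const]
      apply Finset.sum_le_sum
      intro x hx
      rw [div_le_iff₀ hK0, mul_comm]
      exact hmany x hx
    have h2 : ∑ x ∈ X, ((Λ.filter (fun l => l ≤ G.dist (γ x 0) x ∧ γ x l ∈ Q l)).card : ℝ) ≤
        ∑ x ∈ X, (((j : ℝ) + j * (2 * t) * ((D : ℝ) + 1) ^ t) +
      ((Λ.filter (fun l => l + j ≤ G.dist (γ x 0) x ∧ γ x l ∈ Q l ∧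
        Sm l (γ x l))).card : ℝ) +
      ((Λ.filter (fun l => l + j ≤ G.dist (γ x 0) x ∧ γ x l ∈ Q l ∧ ¬ Sm l (γ x l) ∧
        x ∈ Deep (γ x l) (γ x (l + j)) (m - l))).card : ℝ)) := by
      apply Finset.sum_le_sum
      intro x hx
      exact_mod_cast hcount x hx
    have h3 : ∑ x ∈ X, ((Λ.filter (fun l => l + j ≤ G.dist (γ x 0) x ∧ γ x l ∈ Q l ∧
        Sm l (γ x l))).card : ℝ) =
        ∑ l ∈ Λ, ((X.filter (fun x => l + j ≤ G.dist (γ x 0) x ∧ γ x l ∈ Q l ∧
        Sm l (γ x l))).card : ℝ) := by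
      simp only [Finset.card_filter]
      push_cast
      exact Finset.sum_comm
    have h4 : ∑ x ∈ X, ((Λ.filter (fun l => l + j ≤ G.dist (γ x 0) x ∧ γ x l ∈ Q l ∧
        ¬ Sm l (γ x l) ∧ x ∈ Deep (γ x l) (γ x (l + j)) (m - l))).card : ℝ) =
        ∑ l ∈ Λ, ((X.filter (fun x => l + j ≤ G.dist (γ x 0) x ∧ γ x l ∈ Q l ∧
        ¬ Sm l (γ x l) ∧ x ∈ Deep (γ x l) (γ x (l + j)) (m - l))).card : ℝ) := by
      simp only [Finset.card_filter]
      push_cast
      exact Finset.sum_comm
    have h5 := Finset.sum_le_sum hsmall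
    have h6 := Finset.sum_le_sum hdeepc
    rw [Finset.sum_const, nsmul_eq_mul] at h5 h6
    rw [Finset.sum_add_distrib, Finset.sum_add_distrib, Finset.sum_const, nsmul_eq_mul, h3, h4]
      at h2
    have h9 : (Λ.card : ℝ) * (X.card / (2 * K)) =
        Λ.card * (X.card / (4 * K)) + Λ.card * (X.card / (4 * K)) := by
      field_simp
      ring
    rw [h9]
    linarith
  have hfin : (Λ.card : ℝ) ≤ 2 * K * (j * (2 * t) * ((D : ℝ) + 1) ^ t + j) := by
    have h1 : (Λ.card : ℝ) * (X.card / (2 * K)) = X.card * (Λ.card / (2 * K)) := by ring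
    rw [h1, ← mul_add] at htot
    have h2 := le_of_mul_le_mul_left htot hX0
    have h3 : (Λ.card : ℝ) / K = Λ.card / (2 * K) + Λ.card / (2 * K) := by
      field_simp
      ring
    rw [h3] at h2
    have h4 : (Λ.card : ℝ) / (2 * K) ≤ j + j * (2 * t) * ((D : ℝ) + 1) ^ t := by linarith
    rw [div_le_iff₀ (by positivity)] at h4
    linarith
  exact_mod_cast hfin.trans (Nat.le_ceil _)

/-- The covering criterion when all points of `X` lie above all levels of `Λ`. -/
theorem criterion (D : ℕ) (ε K : ℝ) (hε : 0 < ε) (hK : 1 ≤ K) : ∃ N : ℕ,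
    ∀ (V : Type*) (G : SimpleGraph V), Infinite V → G.Connected →
      (∀ v, (G.neighborSet v).Finite ∧ (G.neighborSet v).ncard ≤ D) →
      (expRadii G ε).Infinite →
      ∀ (m : ℕ) (Λ : Finset ℕ) (X : Finset V) (γ : V → ℕ → V) (Q : ℕ → Finset V),
        X.Nonempty →
        (∀ l ∈ Λ, m - l ∈ expRadii G ε) →
        (∀ x ∈ X, G.dist (γ x 0) x ≤ m ∧ γ x (G.dist (γ x 0) x) = x ∧
          (∀ l l', l ≤ l' → l' ≤ G.dist (γ x 0) x → G.dist (γ x l) (γ x l') = l' - l) ∧
          ∀ l ∈ Λ, l ≤ G.dist (γ x 0) x) →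
        (∀ l ∈ Λ, ((Q l).card : ℝ) * maxBall G (m - l) ≤ K * X.card) →
        (∀ x ∈ X, (Λ.card : ℝ) ≤ K * (Λ.filter (fun l => γ x l ∈ Q l)).card) →
        Λ.card ≤ N := by
  obtain ⟨N, hN⟩ := criterion' D ε K hε hK
  refine ⟨N, ?_⟩
  intro V G hinf hG hdeg hR m Λ X γ Q hX hΛ hgeo hcov hmany
  apply hN V G hinf hG hdeg hR m Λ X γ Q hX hΛ
    (fun x hx => ⟨(hgeo x hx).1, (hgeo x hx).2.1, (hgeo x hx).2.2.1⟩) hcov
  intro x hx
  have h : Λ.filter (fun l => l ≤ G.dist (γ x 0) x ∧ γ x l ∈ Q l) =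
      Λ.filter (fun l => γ x l ∈ Q l) := by
    apply Finset.filter_congr
    intro l hl
    exact ⟨fun h => h.2, fun h => ⟨(hgeo x hx).2.2.2 l hl, h⟩⟩
  rw [h]
  exact hmany x hx

end Pool.Agent.XBL
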