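import Pool.Agent.XBL.Tree

/-!
# Matrix inequalities and the growth rate
-/

set_option autoImplicit false

open scoped Classical Topology
open Filter

namespace Pool.Agent.XBL

variable {V : Type*} {κ : Type*} [Fintype κ]

theorem pow_entry_mul (A : Matrix κ κ ℕ) (s t : ℕ) (q d c : κ) :
    (A ^ s) q d * (A ^ t) d c ≤ (A ^ (s + t)) q c := by
  rw [pow_add, Matrix.mul_apply]
  exact Finset.single_le_sum (f := fun d => (A ^ s) q d * (A ^ t) d c)
    (fun _ _ => Nat.zero_le _) (Finset.mem_univ d)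

theorem pow_diag (A : Matrix κ κ ℕ) (s n : ℕ) (q : κ) :
    ((A ^ s) q q) ^ n ≤ (A ^ (s * n)) q q := by
  induction n with
  | zero => simp
  | succ n ih =>
    rw [pow_succ, Nat.mul_succ]
    exact (Nat.mul_le_mul_right _ ih).trans (pow_entry_mul A (s * n) s q q q)

theorem rowSum_add (A : Matrix κ κ ℕ) (q : κ) (k l : ℕ) :
    rowSum A q (k + l) = ∑ d, (A ^ k) q d * rowSum A d l := by
  simp only [rowSum, pow_add, Matrix.mul_apply, Finset.mul_sum]
  exact Finset.sum_comm

theorem rowSum_zero (A : Matrix κ κ ℕ) (q : κ) : rowSum A q 0 = 1 := by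
  simp [rowSum, Matrix.one_apply]

theorem entry_le_rowSum (A : Matrix κ κ ℕ) (q d : κ) (k : ℕ) : (A ^ k) q d ≤ rowSum A q k :=
  Finset.single_le_sum (f := fun d => (A ^ k) q d) (fun _ _ => Nat.zero_le _) (Finset.mem_univ d)

theorem rowSum_le_cumSum (A : Matrix κ κ ℕ) (q : κ) (k : ℕ) : rowSum A q k ≤ cumSum A q k :=
  Finset.single_le_sum (f := fun k => rowSum A q k) (fun _ _ => Nat.zero_le _)
    (Finset.mem_range.2 (Nat.lt_succ_self k))

theorem cumSum_split (A : Matrix κ κ ℕ) (q : κ) (l r : ℕ) :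
    cumSum A q (l + r) = ∑ k ∈ Finset.range l, rowSum A q k +
      ∑ d, (A ^ l) q d * cumSum A d r := by
  rw [cumSum, add_assoc, Finset.sum_range_add]
  congr 1
  simp only [rowSum_add, cumSum, Finset.mul_sum]
  exact Finset.sum_comm

theorem cumSum_mono (A : Matrix κ κ ℕ) (q : κ) : Monotone (cumSum A q) := by
  intro r r' h
  exact Finset.sum_le_sum_of_subset (Finset.range_subset_range.2 (by omega))

theorem cumSum_shift (A : Matrix κ κ ℕ) (q d : κ) (a r : ℕ) (h : 0 < (A ^ a) q d) :
    cumSum A d r ≤ cumSum A q (a + r) := by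
  rw [cumSum_split]
  refine le_trans ?_ (Nat.le_add_left _ _)
  refine le_trans ?_ (Finset.single_le_sum (f := fun d => (A ^ a) q d * cumSum A d r)
    (fun _ _ => Nat.zero_le _) (Finset.mem_univ d))
  exact Nat.le_mul_of_pos_left _ h

theorem cumSum_add_le (A : Matrix κ κ ℕ) (q : κ) (r a B : ℕ) (hB1 : 1 ≤ B)
    (hB : ∀ d, cumSum A d a ≤ B) : cumSum A q (r + a) ≤ cumSum A q r * B := by
  rw [cumSum_split]
  have h1 : ∑ d, (A ^ r) q d * cumSum A d a ≤ rowSum A q r * B := by
    rw [rowSum, Finset.sum_mul]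
    exact Finset.sum_le_sum (fun d _ => Nat.mul_le_mul_left _ (hB d))
  have h2 : ∑ k ∈ Finset.range r, rowSum A q k ≤ (∑ k ∈ Finset.range r, rowSum A q k) * B :=
    Nat.le_mul_of_pos_right _ hB1
  have h3 : cumSum A q r = ∑ k ∈ Finset.range r, rowSum A q k + rowSum A q r := by
    rw [cumSum, Finset.sum_range_succ]
  rw [h3, add_mul]
  exact Nat.add_le_add h2 h1

section

variable {T : Type*} {G : SimpleGraph V} {o : V} {par : T → T} {depth : T → ℕ} {pt : T → V}
  {K : ℕ} {τ : T → κ}

/-- The number of descendants is at most `K` times the largest ball, for every type. -/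
theorem cumSum_le_all {C : ℕ → Finset T} (hC : ∀ n t, t ∈ C n ↔ depth t ≤ n) {D : ℕ}
    {Bf : V → ℕ → Finset V} {b : ℕ → ℕ} (S : Setup G D Bf b)
    (hp : TreeOfGeodesics G o par depth pt K) (ht : TypesDetermine par depth τ) (hK : 1 ≤ K)
    (d : κ) (r : ℕ) : cumSum (typeMatrix par depth τ) d r ≤ K * b r := by
  by_cases h : ∃ t, τ t = d
  · obtain ⟨t, rfl⟩ := h
    rw [← card_sub hC hp ht]
    exact card_sub_le hC hp S t r
  · have h0 : ∀ c, typeMatrix par depth τ d c = 0 := by
      intro c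
      simp only [typeMatrix, h, dif_neg, not_false_eq_true]
    have h1 : ∀ k, rowSum (typeMatrix par depth τ) d (k + 1) = 0 := by
      intro k
      rw [rowSum]
      apply Finset.sum_eq_zero
      intro c _
      rw [pow_succ', Matrix.mul_apply]
      apply Finset.sum_eq_zero
      intro e _
      rw [h0, zero_mul]
    have h2 : cumSum (typeMatrix par depth τ) d r = 1 := by
      rw [cumSum, Finset.sum_range_succ']
      rw [rowSum_zero, Finset.sum_eq_zero (fun k _ => h1 k)]
    rw [h2]
    exact Nat.mul_pos hK (S.one_le r)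

end

/-- The exponential growth rate of a submultiplicative sequence. -/
theorem exists_rate (b : ℕ → ℕ) (hone : ∀ n, 1 ≤ b n) (hsubm : ∀ m n, b (m + n) ≤ b m * b n) :
    ∃ lam : ℝ, 1 ≤ lam ∧ (∀ n, lam ^ n ≤ b n) ∧
      ∀ (x : ℝ) (s : ℕ), 1 ≤ x → (∀ n : ℕ, x ^ n ≤ b (s * n)) → x ≤ lam ^ s := by
  have hbpos : ∀ n, (0 : ℝ) < b n := fun n => by exact_mod_cast hone n
  have hb1 : ∀ n, (1 : ℝ) ≤ b n := fun n => by exact_mod_cast hone n
  obtain ⟨u, hu⟩ : ∃ u : ℕ → ℝ, ∀ n, u n = Real.log (b n) := ⟨_, fun _ => rfl⟩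
  have hu0 : ∀ n, 0 ≤ u n := fun n => by rw [hu]; exact Real.log_nonneg (hb1 n)
  have hsub : Subadditive u := by
    intro m n
    rw [hu, hu, hu, ← Real.log_mul (hbpos m).ne' (hbpos n).ne']
    apply Real.log_le_log (hbpos _)
    exact_mod_cast hsubm m n
  have hbdd : BddBelow (Set.range fun n : ℕ => u n / n) := by
    refine ⟨0, ?_⟩
    rintro _ ⟨n, rfl⟩
    exact div_nonneg (hu0 n) (Nat.cast_nonneg n)
  have htend := hsub.tendsto_lim hbdd
  have hlim0 : 0 ≤ hsub.lim := ge_of_tendsto' htend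
    (fun n => div_nonneg (hu0 n) (Nat.cast_nonneg n))
  refine ⟨Real.exp hsub.lim, Real.one_le_exp hlim0, ?_, ?_⟩
  · intro n
    rcases Nat.eq_zero_or_pos n with rfl | hn
    · rw [pow_zero]; exact hb1 0
    · have h1 := hsub.lim_le_div hbdd hn.ne'
      have hn' : (0 : ℝ) < n := by exact_mod_cast hn
      rw [le_div_iff₀ hn'] at h1
      rw [← Real.exp_nat_mul, ← Real.le_log_iff_exp_le (hbpos n), ← hu]
      linarith
  · intro x s hx hxn
    rcases Nat.eq_zero_or_pos s with rfl | hs
    · rw [pow_zero]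
      by_contra hcon
      push Not at hcon
      obtain ⟨n, hn⟩ := pow_unbounded_of_one_lt (b 0 : ℝ) hcon
      have h1 := hxn n
      rw [zero_mul] at h1
      linarith
    · have hs' : (0 : ℝ) < s := by exact_mod_cast hs
      have hx0 : 0 < x := by linarith
      have h1 : Tendsto (fun n : ℕ => (s : ℝ) * (u (s * (n + 1)) / ((s * (n + 1) : ℕ) : ℝ))) atTop
          (𝓝 (s * hsub.lim)) := by
        apply Tendsto.const_mul
        have h2 : Tendsto (fun n : ℕ => s * (n + 1)) atTop atTop := by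
          apply tendsto_atTop_mono (fun n => show n ≤ s * (n + 1) from ?_) tendsto_id
          exact (Nat.le_succ n).trans (Nat.le_mul_of_pos_left _ hs)
        exact htend.comp h2
      have h3 : Real.log x ≤ s * hsub.lim := by
        apply ge_of_tendsto' h1
        intro n
        have h4 := hxn (n + 1)
        have h5 : ((n : ℝ) + 1) * Real.log x ≤ u (s * (n + 1)) := by
          rw [hu]
          have h6 := Real.log_le_log (by positivity) h4
          rw [Real.log_pow] at h6
          push_cast at h6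
          exact h6
        have hn1 : (0 : ℝ) < (n : ℝ) + 1 := by positivity
        have h7 : (s : ℝ) * (u (s * (n + 1)) / ((s * (n + 1) : ℕ) : ℝ)) =
            u (s * (n + 1)) / (n + 1) := by
          push_cast
          field_simp
        rw [h7, le_div_iff₀ hn1]
        linarith
      rw [← Real.exp_nat_mul, ← Real.log_le_iff_le_exp hx0]
      exact h3

end Pool.Agent.XBL
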