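import Pool.Agent.XBL.Base

/-!
# Basic facts on balls in graphs of bounded degree, and growth from expanding radii
-/

set_option autoImplicit false

open scoped Classical Topology
open Filter

namespace Pool.Agent.XBL

variable {V : Type*}

/-- Finite balls and largest balls in a connected graph of degree at most `D`. -/
structure Setup (G : SimpleGraph V) (D : ℕ) (Bf : V → ℕ → Finset V) (b : ℕ → ℕ) : Prop where
  conn : G.Connected
  mem : ∀ v r x, x ∈ Bf v r ↔ G.dist v x ≤ r
  coe : ∀ v r, ((Bf v r : Finset V) : Set V) = gball G v r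
  ncard : ∀ v r, (gball G v r).ncard = (Bf v r).card
  eq_max : ∀ n, b n = maxBall G n
  le_b : ∀ v r, (Bf v r).card ≤ b r
  attained : ∀ r, ∃ o, (Bf o r).card = b r
  one_le : ∀ n, 1 ≤ b n
  b_le : ∀ n, b n ≤ (D + 1) ^ n
  submul : ∀ m n, b (m + n) ≤ b m * b n
  deg : ∀ (B : Finset V) (x : V), ((B.filter (G.Adj x)).card : ℝ) ≤ (D : ℝ) + 1
  mono : Monotone b

theorem exists_setup {G : SimpleGraph V} (hG : G.Connected) (D : ℕ)
    (hdeg : ∀ v, (G.neighborSet v).Finite ∧ (G.neighborSet v).ncard ≤ D) :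
    ∃ (Bf : V → ℕ → Finset V) (b : ℕ → ℕ), Setup G D Bf b := by
  have hfin : ∀ v r, (gball G v r).Finite := ball_finite hG (fun v => (hdeg v).1)
  let Bf : V → ℕ → Finset V := fun v r => (hfin v r).toFinset
  have hBf : ∀ v r x, x ∈ Bf v r ↔ G.dist v x ≤ r := by
    intro v r x
    simp only [Bf, Set.Finite.mem_toFinset]
    exact Iff.rfl
  have hBfs : ∀ v r, ((Bf v r : Finset V) : Set V) = gball G v r := by
    intro v r
    simp only [Bf, Set.Finite.coe_toFinset]
  have hcard : ∀ v r, (gball G v r).ncard = (Bf v r).card := by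
    intro v r
    rw [← hBfs, Set.ncard_coe_finset]
  have hB1 : ∀ v n, 1 ≤ (Bf v n).card := by
    intro v n
    rw [Nat.one_le_iff_ne_zero]
    intro h
    rw [Finset.card_eq_zero] at h
    have : v ∈ Bf v n := by rw [hBf]; simp
    rw [h] at this
    simp at this
  have hBmono : ∀ v, Monotone (fun n => (Bf v n).card) := by
    intro v n n' hn
    apply Finset.card_le_card
    intro x hx
    rw [hBf] at hx ⊢
    omega
  have hdeg' : ∀ (B : Finset V) (x : V), ((B.filter (G.Adj x)).card : ℝ) ≤ (D : ℝ) + 1 := by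
    intro B x
    have h1 : ((B.filter (G.Adj x) : Finset V) : Set V) ⊆ G.neighborSet x := by
      intro y hy
      rw [Finset.coe_filter] at hy
      exact hy.2
    have h2 := Set.ncard_le_ncard h1 (hdeg x).1
    rw [Set.ncard_coe_finset] at h2
    have h3 : ((B.filter (G.Adj x)).card : ℝ) ≤ D := by exact_mod_cast h2.trans (hdeg x).2
    linarith
  have hBup : ∀ o n, (Bf o n).card ≤ (D + 1) ^ n := by
    intro o n
    induction n with
    | zero =>
      rw [pow_zero]
      have : Bf o 0 ⊆ {o} := by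
        intro x hx
        rw [hBf] at hx
        rw [Finset.mem_singleton]
        exact ((hG.dist_eq_zero_iff).1 (Nat.le_zero.1 hx)).symm
      exact (Finset.card_le_card this).trans (by simp)
    | succ n ih =>
      have h1 : Bf o (n + 1) ⊆ Bf o n ∪
          (Bf o n).biUnion (fun x => (Bf o (n + 1)).filter (G.Adj x)) := by
        intro x hx
        rw [Finset.mem_union]
        by_cases h : G.dist o x ≤ n
        · left; rw [hBf]; exact h
        · right
          have hx' := (hBf _ _ _).1 hx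
          obtain ⟨p, hp1, _⟩ := exists_geodesic hG o x
          have e1 := hp1 1 (by omega)
          rw [Finset.mem_biUnion]
          refine ⟨p 1, (hBf _ _ _).2 (by omega), ?_⟩
          rw [Finset.mem_filter]
          exact ⟨hx, SimpleGraph.dist_eq_one_iff_adj.1 e1.1⟩
      have h2 := (Finset.card_le_card h1).trans (Finset.card_union_le _ _)
      have h3 : ((Bf o n).biUnion (fun x => (Bf o (n + 1)).filter (G.Adj x))).card ≤
          (Bf o n).card * D := by
        apply Finset.card_biUnion_le_card_mul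
        intro x _
        have h4 : (((Bf o (n + 1)).filter (G.Adj x) : Finset V) : Set V) ⊆ G.neighborSet x := by
          intro y hy
          rw [Finset.coe_filter] at hy
          exact hy.2
        have h5 := Set.ncard_le_ncard h4 (hdeg x).1
        rw [Set.ncard_coe_finset] at h5
        exact h5.trans (hdeg x).2
      calc (Bf o (n + 1)).card ≤ (Bf o n).card + (Bf o n).card * D := h2.trans (by omega)
        _ = (Bf o n).card * (D + 1) := by ring
        _ ≤ (D + 1) ^ n * (D + 1) := Nat.mul_le_mul_right _ ih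
        _ = (D + 1) ^ (n + 1) := by ring
  have : Nonempty V := hG.nonempty
  obtain ⟨b, hbdef⟩ : ∃ b : ℕ → ℕ, ∀ n, b n = maxBall G n := ⟨_, fun _ => rfl⟩
  have hbdd : ∀ n, BddAbove (Set.range fun v : V => (gball G v n).ncard) := by
    intro n
    refine ⟨(D + 1) ^ n, ?_⟩
    rintro _ ⟨v, rfl⟩
    show (gball G v n).ncard ≤ _
    rw [hcard]
    exact hBup v n
  have hb : ∀ v r, (Bf v r).card ≤ b r := by
    intro v r
    rw [hbdef, ← hcard]
    exact le_ciSup (hbdd r) v
  have hatt : ∀ r, ∃ o, (Bf o r).card = b r := by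
    intro r
    have h := Nat.sSup_mem (Set.range_nonempty fun v : V => (gball G v r).ncard) (hbdd r)
    obtain ⟨o, ho⟩ := h
    refine ⟨o, ?_⟩
    rw [← hcard, hbdef]
    exact ho
  have hb1 : ∀ n, 1 ≤ b n := by
    intro n
    obtain ⟨o, ho⟩ := hatt n
    rw [← ho]
    exact hB1 o n
  have hbup : ∀ n, b n ≤ (D + 1) ^ n := by
    intro n
    obtain ⟨o, ho⟩ := hatt n
    rw [← ho]
    exact hBup o n
  have hsubm : ∀ m n, b (m + n) ≤ b m * b n := by
    intro m n
    obtain ⟨o, ho⟩ := hatt (m + n)
    have h1 : Bf o (m + n) ⊆ (Bf o m).biUnion (fun v => Bf v n) := by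
      intro x hx
      rw [hBf] at hx
      rw [Finset.mem_biUnion]
      by_cases h : G.dist o x ≤ m
      · exact ⟨x, (hBf _ _ _).2 h, (hBf _ _ _).2 (by simp)⟩
      · obtain ⟨p, hp1, _⟩ := exists_geodesic hG o x
        have e1 := hp1 (G.dist o x - m) (by omega)
        exact ⟨p (G.dist o x - m), (hBf _ _ _).2 (by omega), (hBf _ _ _).2 (by omega)⟩
    have h2 : ((Bf o m).biUnion (fun v => Bf v n)).card ≤ (Bf o m).card * b n := by
      apply Finset.card_biUnion_le_card_mul
      intro v _
      exact hb v n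
    rw [← ho]
    exact (Finset.card_le_card h1).trans (h2.trans (Nat.mul_le_mul_right _ (hb o m)))
  have hmono : Monotone b := by
    intro n n' hn
    obtain ⟨o, ho⟩ := hatt n
    rw [← ho]
    exact (hBmono o hn).trans (hb o n')
  exact ⟨Bf, b, hG, hBf, hBfs, hcard, hbdef, hb, hatt, hb1, hbup, hsubm, hdeg', hmono⟩

/-- Infinitely many expanding radii force exponential growth of the largest balls. -/
theorem Setup.growth {G : SimpleGraph V} {D : ℕ} {Bf : V → ℕ → Finset V} {b : ℕ → ℕ}
    (S : Setup G D Bf b) (hinf : Infinite V) {ε : ℝ} (hε : 0 < ε) (hR : (expRadii G ε).Infinite) :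
    ∀ n i, (1 + ε / (D + 1)) ^ i * (b n : ℝ) ≤ b (n + i) := by
  have hG := S.conn
  have hBf := S.mem
  have hD'0 : (0 : ℝ) < (D : ℝ) + 1 := by positivity
  have hB1 : ∀ v n, 1 ≤ (Bf v n).card := by
    intro v n
    rw [Nat.one_le_iff_ne_zero]
    intro h
    rw [Finset.card_eq_zero] at h
    have : v ∈ Bf v n := by rw [hBf]; simp
    rw [h] at this
    simp at this
  have hBmono : ∀ v, Monotone (fun n => (Bf v n).card) := by
    intro v n n' hn
    apply Finset.card_le_card
    intro x hx
    rw [hBf] at hx ⊢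
    omega
  have hBunb : ∀ o M, ∃ n, M ≤ (Bf o n).card := by
    intro o M
    obtain ⟨T, hT⟩ := Infinite.exists_subset_card_eq V M
    refine ⟨T.sup (fun x => G.dist o x), ?_⟩
    rw [← hT]
    apply Finset.card_le_card
    intro x hx
    rw [hBf]
    exact Finset.le_sup (f := fun x => G.dist o x) hx
  have hexp : ∀ n, n ∈ expRadii G ε → ∀ v, CheegerGE G ((Bf v n : Finset V) : Set V) ε := by
    intro n hn v
    rw [S.coe]
    exact hn v
  have hgrow : ∀ o n, (1 + ε / (D + 1)) * ((Bf o n).card : ℝ) ≤ (Bf o (n + 1)).card := by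
    intro o n
    obtain ⟨M, hM⟩ := hBunb o (2 * (Bf o n).card)
    obtain ⟨ρ, hρR, hρ⟩ := hR.exists_gt (max M (n + 1))
    have hMρ : M ≤ ρ := (le_max_left _ _).trans hρ.le
    have hnρ : n + 1 ≤ ρ := (le_max_right _ _).trans hρ.le
    have h2b : 2 * (Bf o n).card ≤ (Bf o ρ).card := hM.trans (hBmono o hMρ)
    have hsub : Bf o n ⊆ Bf o ρ := by
      intro x hx
      rw [hBf] at hx ⊢
      omega
    have hne : (Bf o n).Nonempty := by
      rw [← Finset.card_pos]
      exact hB1 o n
    have h1 := hexp ρ hρR o ((Bf o n : Finset V) : Set V) (by exact_mod_cast hsub)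
      (by exact_mod_cast hne) (by rw [Set.ncard_coe_finset, Set.ncard_coe_finset]; exact h2b)
    rw [Set.ncard_coe_finset] at h1
    have h2 : edgeBoundary G ((Bf o ρ : Finset V) : Set V) ((Bf o n : Finset V) : Set V) ⊆
        ((((Bf o (n + 1) \ Bf o n).sigma (fun y => (Bf o n).filter (G.Adj y))).image
        (fun q : (_ : V) × V => (q.2, q.1)) : Finset (V × V)) : Set (V × V)) := by
      rintro ⟨x, y⟩ ⟨hx, ⟨hy1, hy2⟩, hadj⟩
      simp only [Finset.mem_coe] at hx hy1 hy2 hadj
      rw [Finset.coe_image]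
      refine ⟨⟨y, x⟩, ?_, rfl⟩
      rw [Finset.mem_coe, Finset.mem_sigma, Finset.mem_sdiff, Finset.mem_filter]
      refine ⟨⟨?_, hy2⟩, hx, hadj.symm⟩
      rw [hBf] at hx ⊢
      show G.dist o y ≤ n + 1
      have e1 : G.dist x y = 1 := SimpleGraph.dist_eq_one_iff_adj.2 hadj
      have e2 := hG.dist_triangle (u := o) (v := x) (w := y)
      omega
    have h3 : ((edgeBoundary G ((Bf o ρ : Finset V) : Set V)
        ((Bf o n : Finset V) : Set V)).ncard : ℝ) ≤
          ((D : ℝ) + 1) * ((Bf o (n + 1)).card - (Bf o n).card) := by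
      have h4 := Set.ncard_le_ncard h2 (Finset.finite_toSet _)
      rw [Set.ncard_coe_finset] at h4
      have h5 : (((Bf o (n + 1) \ Bf o n).sigma (fun y => (Bf o n).filter (G.Adj y))).image
        (fun q : (_ : V) × V => (q.2, q.1))).card ≤
          ∑ y ∈ Bf o (n + 1) \ Bf o n, ((Bf o n).filter (G.Adj y)).card := by
        refine Finset.card_image_le.trans ?_
        rw [Finset.card_sigma]
      have h6 : Bf o n ⊆ Bf o (n + 1) := by
        intro x hx
        rw [hBf] at hx ⊢
        omega
      calc ((edgeBoundary G ((Bf o ρ : Finset V) : Set V)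
          ((Bf o n : Finset V) : Set V)).ncard : ℝ)
          ≤ ((∑ y ∈ Bf o (n + 1) \ Bf o n, ((Bf o n).filter (G.Adj y)).card : ℕ) : ℝ) := by
            exact_mod_cast h4.trans h5
        _ = ∑ y ∈ Bf o (n + 1) \ Bf o n, (((Bf o n).filter (G.Adj y)).card : ℝ) := by
            push_cast; rfl
        _ ≤ ∑ _y ∈ Bf o (n + 1) \ Bf o n, ((D : ℝ) + 1) :=
            Finset.sum_le_sum (fun y _ => S.deg _ y)
        _ = ((D : ℝ) + 1) * ((Bf o (n + 1)).card - (Bf o n).card) := by
            rw [Finset.sum_const, nsmul_eq_mul, Finset.card_sdiff_of_subset h6,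
              Nat.cast_sub (hBmono o (Nat.le_succ n)), mul_comm]
    have h4 := h1.trans h3
    have h5 : ε / (D + 1) * (Bf o n).card ≤ (Bf o (n + 1)).card - (Bf o n).card := by
      rw [div_mul_eq_mul_div, div_le_iff₀ hD'0]
      linarith
    linarith
  have hgrow' : ∀ o n i, (1 + ε / (D + 1)) ^ i * ((Bf o n).card : ℝ) ≤ (Bf o (n + i)).card := by
    intro o n i
    induction i with
    | zero => simp
    | succ i ih =>
      have h1 := hgrow o (n + i)
      have h0 : 0 < 1 + ε / (D + 1) := by positivity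
      calc (1 + ε / (D + 1)) ^ (i + 1) * ((Bf o n).card : ℝ)
          = (1 + ε / (D + 1)) * ((1 + ε / (D + 1)) ^ i * ((Bf o n).card : ℝ)) := by ring
        _ ≤ (1 + ε / (D + 1)) * (Bf o (n + i)).card := mul_le_mul_of_nonneg_left ih h0.le
        _ ≤ (Bf o (n + (i + 1))).card := h1
  intro n i
  obtain ⟨o, ho⟩ := S.attained n
  rw [← ho]
  refine (hgrow' o n i).trans ?_
  exact_mod_cast S.le_b o (n + i)

theorem expRadii_mono {G : SimpleGraph V} {ε ε' : ℝ} (h : ε' ≤ ε) :
    expRadii G ε ⊆ expRadii G ε' := by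
  intro n hn v
  exact (hn v).mono h

end Pool.Agent.XBL
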