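import Pool.Agent.XBL.Criterion
import Pool.Agent.XBL.Transitive

/-!
# Geodesics in graphs with expanding balls are thin
-/

set_option autoImplicit false

open scoped Classical Topology
open Filter

namespace Pool.Agent.XBL

/-- `γ x 0, γ x 1, …, γ x (d(o,x))` is a geodesic from `o` to `x`, for every vertex `x`. -/
def GeodesicsFrom {V : Type*} (G : SimpleGraph V) (o : V) (γ : V → ℕ → V) : Prop :=
  ∀ x, γ x 0 = o ∧ γ x (G.dist o x) = x ∧
    ∀ l l', l ≤ l' → l' ≤ G.dist o x → G.dist (γ x l) (γ x l') = l' - l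

/-- The shadow of `q` at level `l`: the vertices `x` of `B(o,m)` at distance at least `l` from `o`
whose geodesic `γ x` is at `q` at time `l`. -/
def shadow {V : Type*} (G : SimpleGraph V) (o : V) (γ : V → ℕ → V) (m l : ℕ) (q : V) : Set V :=
  {x | G.dist o x ≤ m ∧ l ≤ G.dist o x ∧ γ x l = q}

/-- **Thin geodesics.** -/
theorem thin_geodesics (D : ℕ) (ε δ : ℝ) (hε : 0 < ε) (hδ : 0 < δ) : ∃ N : ℕ,
    ∀ (V : Type*) (G : SimpleGraph V), Infinite V → G.Connected →
      (∀ v, (G.neighborSet v).Finite ∧ (G.neighborSet v).ncard ≤ D) →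
      (expRadii G ε).Infinite →
      ∀ (o : V) (γ : V → ℕ → V), GeodesicsFrom G o γ → ∀ m : ℕ,
        {l | l ≤ m ∧ m - l ∈ expRadii G ε ∧
          δ * (gball G o m).ncard ≤ {x ∈ gball G o m | l ≤ G.dist o x ∧
            δ * maxBall G (m - l) ≤ (shadow G o γ m l (γ x l)).ncard}.ncard}.ncard ≤ N := by
  -- we may take `δ ≤ 1`
  obtain ⟨δ', hδ'⟩ : ∃ δ' : ℝ, δ' = min δ 1 := ⟨_, rfl⟩
  have hδ'0 : 0 < δ' := by rw [hδ']; exact lt_min hδ one_pos
  have hδ'1 : δ' ≤ 1 := by rw [hδ']; exact min_le_right _ _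
  have hδ'δ : δ' ≤ δ := by rw [hδ']; exact min_le_left _ _
  obtain ⟨K, hK⟩ : ∃ K : ℝ, K = 2 / δ' ^ 2 := ⟨_, rfl⟩
  have hsq : 0 < δ' ^ 2 := by positivity
  have hKδ : 2 / δ' ≤ K := by
    rw [hK]
    apply div_le_div_of_nonneg_left (by norm_num) hsq
    nlinarith
  have hK1 : 1 ≤ K := by
    refine le_trans ?_ hKδ
    rw [le_div_iff₀ hδ'0]
    linarith
  obtain ⟨N, hN⟩ := criterion' D ε K hε hK1
  refine ⟨N, ?_⟩
  intro V G hinf hG hdeg hR o γ hγ m
  obtain ⟨Bf, b, S⟩ := exists_setup hG D hdeg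
  have hBf := S.mem
  -- finite versions
  obtain ⟨sh, hsh⟩ : ∃ sh : ℕ → V → Finset V, ∀ l q x, x ∈ sh l q ↔
      x ∈ Bf o m ∧ l ≤ G.dist o x ∧ γ x l = q :=
    ⟨fun l q => (Bf o m).filter (fun x => l ≤ G.dist o x ∧ γ x l = q),
      fun l q x => by rw [Finset.mem_filter]⟩
  have hsh' : ∀ l q, (shadow G o γ m l q).ncard = (sh l q).card := by
    intro l q
    rw [← Set.ncard_coe_finset]
    congr 1
    ext x
    rw [Finset.mem_coe, hsh, hBf]
    exact Iff.rfl
  obtain ⟨Q, hQ⟩ : ∃ Q : ℕ → Finset V, ∀ l q, q ∈ Q l ↔ q ∈ Bf o m ∧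
      δ' * b (m - l) ≤ (sh l q).card :=
    ⟨fun l => (Bf o m).filter (fun q => δ' * b (m - l) ≤ (sh l q).card),
      fun l q => by rw [Finset.mem_filter]⟩
  obtain ⟨Λ, hΛ⟩ : ∃ Λ : Finset ℕ, ∀ l, l ∈ Λ ↔ l ≤ m ∧ m - l ∈ expRadii G ε ∧
      δ' * (Bf o m).card ≤
        ((Bf o m).filter (fun x => l ≤ G.dist o x ∧ γ x l ∈ Q l)).card :=
    ⟨(Finset.range (m + 1)).filter (fun l => m - l ∈ expRadii G ε ∧
      δ' * (Bf o m).card ≤
        ((Bf o m).filter (fun x => l ≤ G.dist o x ∧ γ x l ∈ Q l)).card),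
      fun l => by rw [Finset.mem_filter, Finset.mem_range, Nat.lt_succ_iff]⟩
  have hγB : ∀ x l, G.dist o x ≤ m → l ≤ G.dist o x → G.dist o (γ x l) ≤ m := by
    intro x l h1 h2
    obtain ⟨g0, g1, g2⟩ := hγ x
    have := g2 0 l (Nat.zero_le _) h2
    rw [g0] at this
    omega
  have hsub : {l | l ≤ m ∧ m - l ∈ expRadii G ε ∧
          δ * (gball G o m).ncard ≤ {x ∈ gball G o m | l ≤ G.dist o x ∧
            δ * maxBall G (m - l) ≤ (shadow G o γ m l (γ x l)).ncard}.ncard} ⊆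
      (Λ : Set ℕ) := by
    rintro l ⟨h1, h2, h3⟩
    rw [Finset.mem_coe, hΛ]
    refine ⟨h1, h2, ?_⟩
    rw [S.ncard] at h3
    have h4 : {x ∈ gball G o m | l ≤ G.dist o x ∧
            δ * maxBall G (m - l) ≤ (shadow G o γ m l (γ x l)).ncard} ⊆
        (((Bf o m).filter (fun x => l ≤ G.dist o x ∧ γ x l ∈ Q l) : Finset V) : Set V) := by
      rintro x ⟨hx1, hx2, hx3⟩
      have hx1' : G.dist o x ≤ m := hx1
      rw [Finset.mem_coe, Finset.mem_filter]
      refine ⟨(hBf _ _ _).2 hx1, hx2, ?_⟩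
      rw [hQ, hBf]
      refine ⟨hγB x l hx1' hx2, ?_⟩
      rw [hsh', ← S.eq_max] at hx3
      exact le_trans (mul_le_mul_of_nonneg_right hδ'δ (Nat.cast_nonneg _)) hx3
    have h5 := Set.ncard_le_ncard h4 (Finset.finite_toSet _)
    rw [Set.ncard_coe_finset] at h5
    calc δ' * ((Bf o m).card : ℝ) ≤ δ * (Bf o m).card :=
          mul_le_mul_of_nonneg_right hδ'δ (Nat.cast_nonneg _)
      _ ≤ _ := h3
      _ ≤ _ := by exact_mod_cast h5
  refine (Set.ncard_le_ncard hsub (Finset.finite_toSet _)).trans ?_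
  rw [Set.ncard_coe_finset]
  -- the points whose geodesics meet the heavy vertices at many levels
  rcases Λ.eq_empty_or_nonempty with hΛe | hΛne
  · rw [hΛe]; simp
  have hΛ0 : (0 : ℝ) < Λ.card := by exact_mod_cast Finset.card_pos.2 hΛne
  have hB0 : (0 : ℝ) < (Bf o m).card := by
    have : o ∈ Bf o m := by rw [hBf]; simp
    exact_mod_cast Finset.card_pos.2 ⟨o, this⟩
  obtain ⟨c, hc⟩ : ∃ c : V → ℕ, ∀ x, c x =
      (Λ.filter (fun l => l ≤ G.dist o x ∧ γ x l ∈ Q l)).card := ⟨_, fun _ => rfl⟩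
  obtain ⟨X, hX⟩ : ∃ X : Finset V, X = (Bf o m).filter (fun x => (δ' / 2) * Λ.card ≤ c x) :=
    ⟨_, rfl⟩
  have hsum : δ' * (Bf o m).card * Λ.card ≤ ∑ x ∈ Bf o m, (c x : ℝ) := by
    have h1 : ∑ x ∈ Bf o m, (c x : ℝ) =
        ∑ l ∈ Λ, (((Bf o m).filter (fun x => l ≤ G.dist o x ∧ γ x l ∈ Q l)).card : ℝ) := by
      simp only [hc, Finset.card_filter]
      push_cast
      exact Finset.sum_comm
    rw [h1]
    calc δ' * (Bf o m).card * Λ.card = ∑ _l ∈ Λ, δ' * (Bf o m).card := by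
          rw [Finset.sum_const, nsmul_eq_mul, mul_comm]
      _ ≤ _ := Finset.sum_le_sum (fun l hl => ((hΛ l).1 hl).2.2)
  have hsum2 : ∑ x ∈ Bf o m, (c x : ℝ) ≤
      X.card * Λ.card + (Bf o m).card * ((δ' / 2) * Λ.card) := by
    have h1 : ∑ x ∈ Bf o m, (c x : ℝ) = ∑ x ∈ X, (c x : ℝ) +
        ∑ x ∈ (Bf o m).filter (fun x => ¬ (δ' / 2) * Λ.card ≤ c x), (c x : ℝ) := by
      rw [hX, Finset.sum_filter_add_sum_filter_not]
    rw [h1]
    apply add_le_add
    · calc ∑ x ∈ X, (c x : ℝ) ≤ ∑ _x ∈ X, (Λ.card : ℝ) := by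
            apply Finset.sum_le_sum
            intro x _
            rw [hc]
            exact_mod_cast Finset.card_le_card (Finset.filter_subset _ _)
        _ = X.card * Λ.card := by rw [Finset.sum_const, nsmul_eq_mul]
    · calc ∑ x ∈ (Bf o m).filter (fun x => ¬ (δ' / 2) * Λ.card ≤ c x), (c x : ℝ)
          ≤ ∑ _x ∈ (Bf o m).filter (fun x => ¬ (δ' / 2) * Λ.card ≤ c x),
              ((δ' / 2) * Λ.card) := by
            apply Finset.sum_le_sum
            intro x hx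
            exact (not_le.1 (Finset.mem_filter.1 hx).2).le
        _ = ((Bf o m).filter (fun x => ¬ (δ' / 2) * Λ.card ≤ c x)).card *
              ((δ' / 2) * Λ.card) := by rw [Finset.sum_const, nsmul_eq_mul]
        _ ≤ (Bf o m).card * ((δ' / 2) * Λ.card) := by
            apply mul_le_mul_of_nonneg_right _ (by positivity)
            exact_mod_cast Finset.card_le_card (Finset.filter_subset _ _)
  have hXcard : (δ' / 2) * (Bf o m).card ≤ X.card := by
    have h1 := hsum.trans hsum2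
    have h2 : ((δ' / 2) * (Bf o m).card) * Λ.card ≤ X.card * Λ.card := by
      nlinarith
    exact le_of_mul_le_mul_right h2 hΛ0
  have hXne : X.Nonempty := by
    rw [Finset.nonempty_iff_ne_empty]
    intro h
    rw [h] at hXcard
    have : 0 < (δ' / 2) * (Bf o m).card := by positivity
    simp at hXcard
    linarith
  have hXB : ∀ x ∈ X, G.dist o x ≤ m ∧ (δ' / 2) * Λ.card ≤ c x := by
    intro x hx
    rw [hX, Finset.mem_filter, hBf] at hx
    exact hx
  apply hN V G hinf hG hdeg hR m Λ X γ Q hXne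
  · intro l hl
    exact ((hΛ l).1 hl).2.1
  · intro x hx
    obtain ⟨g0, g1, g2⟩ := hγ x
    rw [g0]
    exact ⟨(hXB x hx).1, g1, g2⟩
  · intro l hl
    rw [← S.eq_max]
    -- the shadows are disjoint
    have h1 : ∑ q ∈ Q l, ((sh l q).card : ℝ) ≤ (Bf o m).card := by
      rw [← Nat.cast_sum, ← Finset.card_biUnion]
      · have : (Q l).biUnion (fun q => sh l q) ⊆ Bf o m := by
          intro x hx
          rw [Finset.mem_biUnion] at hx
          obtain ⟨q, _, hxq⟩ := hx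
          exact ((hsh _ _ _).1 hxq).1
        exact_mod_cast Finset.card_le_card this
      · intro q _ q' _ hqq
        rw [Function.onFun, Finset.disjoint_left]
        intro x hx hx'
        exact hqq (((hsh _ _ _).1 hx).2.2.symm.trans ((hsh _ _ _).1 hx').2.2)
    have h2 : (Q l).card * (δ' * b (m - l)) ≤ ∑ q ∈ Q l, ((sh l q).card : ℝ) := by
      rw [← nsmul_eq_mul, ← Finset.sum_const]
      apply Finset.sum_le_sum
      intro q hq
      exact ((hQ l q).1 hq).2
    have h3 : (Q l).card * (δ' * b (m - l)) ≤ (2 / δ') * X.card := by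
      refine (h2.trans h1).trans ?_
      rw [div_mul_eq_mul_div, le_div_iff₀ hδ'0]
      linarith
    have h4 : ((Q l).card : ℝ) * b (m - l) = (1 / δ') * ((Q l).card * (δ' * b (m - l))) := by
      field_simp
    rw [h4, hK]
    calc (1 / δ') * ((Q l).card * (δ' * b (m - l))) ≤ (1 / δ') * ((2 / δ') * X.card) :=
          mul_le_mul_of_nonneg_left h3 (by positivity)
      _ = 2 / δ' ^ 2 * X.card := by field_simp
  · intro x hx
    obtain ⟨g0, g1, g2⟩ := hγ x
    rw [g0, ← hc]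
    have h1 := (hXB x hx).2
    have h2 : (Λ.card : ℝ) ≤ (2 / δ') * c x := by
      rw [div_mul_eq_mul_div, le_div_iff₀ hδ'0]
      linarith
    exact h2.trans (mul_le_mul_of_nonneg_right hKδ (Nat.cast_nonneg _))

end Pool.Agent.XBL
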