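import Pool.Agent.XBL.Setup

/-!
# Trees of geodesics with finitely many types
-/

set_option autoImplicit false

open scoped Classical Topology
open Filter

namespace Pool.Agent.XBL

variable {V : Type*} {T : Type*} {κ : Type*}

/-- A rooted tree with node set `T`, parent map `par` and depth function `depth`, whose nodes `t`
are placed at vertices `pt t` of `G` in such a way that the paths from the root become geodesics
from `o`, every vertex is met, and at most `K` nodes are placed at the same vertex. -/
structure TreeOfGeodesics (G : SimpleGraph V) (o : V) (par : T → T) (depth : T → ℕ) (pt : T → V)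
    (K : ℕ) : Prop where
  root : ∃! t, depth t = 0
  parent : ∀ t, depth t ≠ 0 → G.Adj (pt (par t)) (pt t) ∧ depth t = depth (par t) + 1
  geodesic : ∀ t, G.dist o (pt t) = depth t
  onto : ∀ v, ∃ t, pt t = v
  fibre : ∀ v, {t | pt t = v}.Finite ∧ {t | pt t = v}.ncard ≤ K

/-- The children of `t` of type `c`. -/
def childrenOfType (par : T → T) (depth : T → ℕ) (τ : T → κ) (t : T) (c : κ) : Set T :=
  {s | depth s ≠ 0 ∧ par s = t ∧ τ s = c}

/-- The numbers of children of the various types depend only on the type of the parent. -/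
def TypesDetermine (par : T → T) (depth : T → ℕ) (τ : T → κ) : Prop :=
  ∀ t t', τ t = τ t' → ∀ c,
    (childrenOfType par depth τ t c).ncard = (childrenOfType par depth τ t' c).ncard

section

variable {G : SimpleGraph V} {o : V} {par : T → T} {depth : T → ℕ} {pt : T → V} {K : ℕ}

theorem depth_iterate (hp : TreeOfGeodesics G o par depth pt K) :
    ∀ (k : ℕ) (s : T), k ≤ depth s → depth (par^[k] s) = depth s - k := by
  intro k
  induction k with
  | zero => intro s _; simp
  | succ k ih =>
    intro s hs
    have h1 := (hp.parent s (by omega)).2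
    rw [Function.iterate_succ_apply, ih (par s) (by omega)]
    omega

theorem dist_iterate_le (hp : TreeOfGeodesics G o par depth pt K) (hG : G.Connected) :
    ∀ (k : ℕ) (s : T), k ≤ depth s → G.dist (pt (par^[k] s)) (pt s) ≤ k := by
  intro k
  induction k with
  | zero => intro s _; simp
  | succ k ih =>
    intro s hs
    have h1 := hp.parent s (by omega)
    have h2 := ih (par s) (by omega)
    have h3 : G.dist (pt (par s)) (pt s) = 1 := SimpleGraph.dist_eq_one_iff_adj.2 h1.1
    rw [Function.iterate_succ_apply]
    have h4 := hG.dist_triangle (u := pt (par^[k] (par s))) (v := pt (par s)) (w := pt s)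
    omega

theorem dist_iterate_eq (hp : TreeOfGeodesics G o par depth pt K) (hG : G.Connected)
    (k : ℕ) (s : T) (hk : k ≤ depth s) : G.dist (pt (par^[k] s)) (pt s) = k := by
  have h1 := depth_iterate hp k s hk
  have h2 := dist_iterate_le hp hG k s hk
  have h3 := hG.dist_triangle (u := o) (v := pt (par^[k] s)) (w := pt s)
  rw [hp.geodesic, hp.geodesic] at h3
  omega

/-- Containers: the nodes of depth at most `n`. -/
theorem exists_container (hp : TreeOfGeodesics G o par depth pt K) {D : ℕ}
    {Bf : V → ℕ → Finset V} {b : ℕ → ℕ} (S : Setup G D Bf b) :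
    ∃ C : ℕ → Finset T, ∀ n t, t ∈ C n ↔ depth t ≤ n := by
  have hfin : ∀ n, {t : T | depth t ≤ n}.Finite := by
    intro n
    apply ((Bf o n).finite_toSet.biUnion (fun v _ => (hp.fibre v).1)).subset
    intro t ht
    rw [Set.mem_iUnion₂]
    refine ⟨pt t, ?_, rfl⟩
    rw [Finset.mem_coe, S.mem, hp.geodesic]
    exact ht
  exact ⟨fun n => (hfin n).toFinset, fun n t => by rw [Set.Finite.mem_toFinset]; rfl⟩

/-- The descendants of `t` at depth `k` below `t`. -/
noncomputable def desc (C : ℕ → Finset T) (par : T → T) (depth : T → ℕ) (t : T) (k : ℕ) :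
    Finset T :=
  (C (depth t + k)).filter (fun s => depth s = depth t + k ∧ par^[k] s = t)

variable {C : ℕ → Finset T} (hC : ∀ n t, t ∈ C n ↔ depth t ≤ n)

include hC

theorem mem_desc {t s : T} {k : ℕ} :
    s ∈ desc C par depth t k ↔ depth s = depth t + k ∧ par^[k] s = t := by
  rw [desc, Finset.mem_filter, hC]
  constructor
  · exact fun h => h.2
  · exact fun h => ⟨h.1.le, h⟩

theorem self_mem_desc (hp : TreeOfGeodesics G o par depth pt K) {s : T} {k : ℕ}
    (hk : k ≤ depth s) : s ∈ desc C par depth (par^[k] s) k := by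
  rw [mem_desc hC]
  refine ⟨?_, rfl⟩
  rw [depth_iterate hp k s hk]
  omega

theorem dist_of_mem_desc (hp : TreeOfGeodesics G o par depth pt K) (hG : G.Connected) {t s : T}
    {k : ℕ} (hs : s ∈ desc C par depth t k) : G.dist (pt t) (pt s) = k := by
  rw [mem_desc hC] at hs
  obtain ⟨h1, h2⟩ := hs
  have h3 := dist_iterate_eq hp hG k s (by omega)
  rwa [h2] at h3

/-- Ancestors of a descendant. -/
theorem ancestor_mem (hp : TreeOfGeodesics G o par depth pt K) {t s : T} {k l : ℕ}
    (hs : s ∈ desc C par depth t k) (hl : l ≤ k) :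
    par^[k - l] s ∈ desc C par depth t l ∧ s ∈ desc C par depth (par^[k - l] s) (k - l) := by
  rw [mem_desc hC] at hs
  obtain ⟨h1, h2⟩ := hs
  have h3 := depth_iterate hp (k - l) s (by omega)
  refine ⟨?_, ?_⟩
  · rw [mem_desc hC]
    refine ⟨by omega, ?_⟩
    rw [← Function.iterate_add_apply, show l + (k - l) = k by omega]
    exact h2
  · exact self_mem_desc hC hp (by omega)

/-- Transitivity of descent. -/
theorem desc_trans {t u s : T} {k l : ℕ}
    (hu : u ∈ desc C par depth t k) (hs : s ∈ desc C par depth u l) :
    s ∈ desc C par depth t (k + l) := by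
  rw [mem_desc hC] at hu hs ⊢
  refine ⟨by omega, ?_⟩
  rw [Function.iterate_add_apply, hs.2, hu.2]

theorem desc_zero (t : T) : desc C par depth t 0 = {t} := by
  ext s
  rw [mem_desc hC, Finset.mem_singleton]
  constructor
  · rintro ⟨_, h⟩
    simpa using h
  · rintro rfl
    simp

omit hC

/-- The matrix of numbers of children. -/
noncomputable def typeMatrix (par : T → T) (depth : T → ℕ) (τ : T → κ) : Matrix κ κ ℕ :=
  fun q c => if h : ∃ t, τ t = q then (childrenOfType par depth τ h.choose c).ncard else 0

theorem typeMatrix_apply {τ : T → κ} (ht : TypesDetermine par depth τ) (t : T) (c : κ) :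
    typeMatrix par depth τ (τ t) c = (childrenOfType par depth τ t c).ncard := by
  have h : ∃ w, τ w = τ t := ⟨t, rfl⟩
  simp only [typeMatrix, h, dif_pos]
  exact ht _ _ h.choose_spec c

include hC

theorem card_children (hp : TreeOfGeodesics G o par depth pt K) {τ : T → κ}
    (ht : TypesDetermine par depth τ) (t : T) (c : κ) :
    ((desc C par depth t 1).filter (fun s => τ s = c)).card = typeMatrix par depth τ (τ t) c := by
  rw [typeMatrix_apply ht, ← Set.ncard_coe_finset]
  congr 1
  ext s
  simp only [Finset.coe_filter, mem_desc hC, childrenOfType, Set.mem_ofPred_eq,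
    Function.iterate_one]
  constructor
  · rintro ⟨⟨h1, h2⟩, h3⟩
    exact ⟨by omega, h2, h3⟩
  · rintro ⟨h1, h2, h3⟩
    refine ⟨⟨?_, h2⟩, h3⟩
    have := (hp.parent s h1).2
    rw [h2] at this
    exact this

variable [Fintype κ]

theorem card_desc_type (hp : TreeOfGeodesics G o par depth pt K) {τ : T → κ}
    (ht : TypesDetermine par depth τ) (t : T) (k : ℕ) (c : κ) :
    ((desc C par depth t k).filter (fun s => τ s = c)).card =
      (typeMatrix par depth τ ^ k) (τ t) c := by
  induction k generalizing c with
  | zero =>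
    rw [desc_zero hC, pow_zero, Matrix.one_apply, Finset.filter_singleton]
    split_ifs with h <;> simp
  | succ k ih =>
    rw [pow_succ, Matrix.mul_apply]
    have h1 : (desc C par depth t (k + 1)).filter (fun s => τ s = c) =
        (desc C par depth t k).biUnion
          (fun u => (desc C par depth u 1).filter (fun s => τ s = c)) := by
      ext s
      rw [Finset.mem_filter, Finset.mem_biUnion]
      constructor
      · rintro ⟨h, hc⟩
        have h2 := ancestor_mem hC hp h (Nat.le_succ k)
        rw [show k + 1 - k = 1 by omega] at h2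
        exact ⟨_, h2.1, Finset.mem_filter.2 ⟨h2.2, hc⟩⟩
      · rintro ⟨u, hu, hs⟩
        rw [Finset.mem_filter] at hs
        exact ⟨desc_trans hC hu hs.1, hs.2⟩
    rw [h1, Finset.card_biUnion]
    · have h2 : ∀ u ∈ desc C par depth t k,
          ((desc C par depth u 1).filter (fun s => τ s = c)).card =
            typeMatrix par depth τ (τ u) c :=
        fun u _ => card_children hC hp ht u c
      rw [Finset.sum_congr rfl h2]
      rw [← Finset.sum_fiberwise (desc C par depth t k) τ]
      apply Finset.sum_congr rfl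
      intro q _
      rw [← ih q]
      rw [Finset.sum_congr rfl (g := fun _ => typeMatrix par depth τ q c)]
      · rw [Finset.sum_const, smul_eq_mul]
      · intro u hu
        rw [(Finset.mem_filter.1 hu).2]
    · intro u _ w _ huw
      rw [Function.onFun, Finset.disjoint_left]
      intro s hs hs'
      rw [Finset.mem_filter, mem_desc hC] at hs hs'
      exact huw (hs.1.2.symm.trans hs'.1.2)

omit hC

/-- Number of descendants at depth `k`, by type. -/
noncomputable def rowSum (A : Matrix κ κ ℕ) (q : κ) (k : ℕ) : ℕ := ∑ c, (A ^ k) q c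

/-- Number of descendants up to depth `r`, by type. -/
noncomputable def cumSum (A : Matrix κ κ ℕ) (q : κ) (r : ℕ) : ℕ :=
  ∑ k ∈ Finset.range (r + 1), rowSum A q k

/-- The descendants of `t` up to depth `r`. -/
noncomputable def sub (C : ℕ → Finset T) (par : T → T) (depth : T → ℕ) (t : T) (r : ℕ) :
    Finset T :=
  (Finset.range (r + 1)).biUnion (fun k => desc C par depth t k)

omit [Fintype κ] in
theorem mem_sub {t s : T} {r : ℕ} :
    s ∈ sub C par depth t r ↔ ∃ k ≤ r, s ∈ desc C par depth t k := by
  rw [sub, Finset.mem_biUnion]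
  constructor
  · rintro ⟨k, hk, hs⟩
    exact ⟨k, Nat.lt_succ_iff.1 (Finset.mem_range.1 hk), hs⟩
  · rintro ⟨k, hk, hs⟩
    exact ⟨k, Finset.mem_range.2 (Nat.lt_succ_iff.2 hk), hs⟩

include hC

theorem card_desc (hp : TreeOfGeodesics G o par depth pt K) {τ : T → κ}
    (ht : TypesDetermine par depth τ) (t : T) (k : ℕ) :
    (desc C par depth t k).card = rowSum (typeMatrix par depth τ) (τ t) k := by
  rw [rowSum]
  rw [Finset.card_eq_sum_card_fiberwise (f := τ) (t := Finset.univ) (fun x _ => by simp)]
  exact Finset.sum_congr rfl (fun c _ => card_desc_type hC hp ht t k c)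

theorem card_sub (hp : TreeOfGeodesics G o par depth pt K) {τ : T → κ}
    (ht : TypesDetermine par depth τ) (t : T) (r : ℕ) :
    (sub C par depth t r).card = cumSum (typeMatrix par depth τ) (τ t) r := by
  rw [sub, Finset.card_biUnion]
  · exact Finset.sum_congr rfl (fun k _ => card_desc hC hp ht t k)
  · intro k _ l _ hkl
    rw [Function.onFun, Finset.disjoint_left]
    intro x hx hx'
    rw [mem_desc hC] at hx hx'
    omega

omit [Fintype κ] in
theorem card_sub_le (hp : TreeOfGeodesics G o par depth pt K) {D : ℕ}
    {Bf : V → ℕ → Finset V} {b : ℕ → ℕ} (S : Setup G D Bf b) (t : T) (r : ℕ) :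
    (sub C par depth t r).card ≤ K * b r := by
  have h1 : ∀ s ∈ sub C par depth t r, pt s ∈ Bf (pt t) r := by
    intro s hs
    obtain ⟨k, hk, hsk⟩ := mem_sub.1 hs
    rw [S.mem, dist_of_mem_desc hC hp S.conn hsk]
    exact hk
  refine (Finset.card_le_mul_card_image_of_maps_to h1 K ?_).trans
    (Nat.mul_le_mul_left K (S.le_b _ _))
  intro v _
  have h2 : (((sub C par depth t r).filter (fun s => pt s = v) : Finset T) : Set T) ⊆
      {t | pt t = v} := by
    intro s hs
    rw [Finset.coe_filter] at hs
    exact hs.2
  have h3 := Set.ncard_le_ncard h2 (hp.fibre v).1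
  rw [Set.ncard_coe_finset] at h3
  exact h3.trans (hp.fibre v).2

theorem cumSum_root_ge (hp : TreeOfGeodesics G o par depth pt K) {τ : T → κ}
    (ht : TypesDetermine par depth τ) {D : ℕ}
    {Bf : V → ℕ → Finset V} {b : ℕ → ℕ} (S : Setup G D Bf b) {t0 : T} (ht0 : depth t0 = 0)
    (r : ℕ) : (Bf o r).card ≤ cumSum (typeMatrix par depth τ) (τ t0) r := by
  rw [← card_sub hC hp ht]
  have h1 : Bf o r ⊆ (sub C par depth t0 r).image pt := by
    intro v hv
    rw [S.mem] at hv
    obtain ⟨s, rfl⟩ := hp.onto v
    rw [hp.geodesic] at hv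
    rw [Finset.mem_image]
    refine ⟨s, ?_, rfl⟩
    rw [mem_sub]
    refine ⟨depth s, hv, ?_⟩
    have h2 := self_mem_desc hC hp (s := s) (k := depth s) le_rfl
    have h3 := depth_iterate hp (depth s) s le_rfl
    rw [Nat.sub_self] at h3
    have h4 : par^[depth s] s = t0 := hp.root.unique h3 ht0
    rwa [h4] at h2
  exact (Finset.card_le_card h1).trans Finset.card_image_le

end

end Pool.Agent.XBL
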