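import Pool.Agent.XBL.Criterion
import Pool.Agent.XBL.MatrixGrowth

/-!
# Trees of geodesics with finitely many types: balls are not expanders
-/

set_option autoImplicit false

open scoped Classical Topology
open Filter

namespace Pool.Agent.XBL

variable {V : Type*}

/-- **Finitely many types.** If `G` has a tree of geodesics with finitely many types and bounded
multiplicity, and balls around other vertices are not much larger than balls around the root, then
there are arbitrarily long windows with at most `N` expanding radii. -/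
theorem finite_types {G : SimpleGraph V} (hinf : Infinite V) (hG : G.Connected) (D : ℕ)
    (hdeg : ∀ v, (G.neighborSet v).Finite ∧ (G.neighborSet v).ncard ≤ D) (o : V) {T : Type*}
    (par : T → T) (depth : T → ℕ) (pt : T → V) (K : ℕ)
    (hp : TreeOfGeodesics G o par depth pt K) {κ : Type*} [Finite κ] (τ : T → κ)
    (ht : TypesDetermine par depth τ)
    (M : ℝ) (hM : ∀ v r, ((gball G v r).ncard : ℝ) ≤ M * (gball G o r).ncard)
    (ε : ℝ) (hε : 0 < ε) :
    ∃ N : ℕ, ∀ L : ℕ, ∃ m, L ≤ m ∧ {n ∈ expRadii G ε | m ≤ n + L ∧ n ≤ m}.ncard ≤ N := by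
  by_cases hR : (expRadii G ε).Infinite
  swap
  · -- finitely many expanding radii
    rw [Set.not_infinite] at hR
    refine ⟨0, fun L => ?_⟩
    obtain ⟨M, hM⟩ := hR.bddAbove
    refine ⟨M + 1 + L, by omega, ?_⟩
    have : {n ∈ expRadii G ε | M + 1 + L ≤ n + L ∧ n ≤ M + 1 + L} = ∅ := by
      rw [Set.eq_empty_iff_forall_notMem]
      rintro n ⟨hn, h1, h2⟩
      have := hM hn
      omega
    rw [this, Set.ncard_empty]
  have : Fintype κ := Fintype.ofFinite κ
  obtain ⟨Bf, b, S⟩ := exists_setup hG D hdeg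
  obtain ⟨C, hC⟩ := exists_container hp S
  obtain ⟨A, hA⟩ : ∃ A : Matrix κ κ ℕ, A = typeMatrix par depth τ := ⟨_, rfl⟩
  obtain ⟨t0, ht0, -⟩ := hp.root
  have hK1 : 1 ≤ K := by
    obtain ⟨h1, h2⟩ := hp.fibre (pt t0)
    have h3 : 0 < {t | pt t = pt t0}.ncard := by
      rw [Set.ncard_pos h1]
      exact ⟨t0, rfl⟩
    omega
  -- the dominating sequence
  obtain ⟨B, hB⟩ : ∃ B : ℕ → ℕ, ∀ n, B n = K * b n := ⟨_, fun _ => rfl⟩
  have hB1 : ∀ n, 1 ≤ B n := fun n => by rw [hB]; exact Nat.mul_pos hK1 (S.one_le n)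
  have hBsub : ∀ m n, B (m + n) ≤ B m * B n := by
    intro m n
    rw [hB, hB, hB]
    calc K * b (m + n) ≤ K * (b m * b n) := Nat.mul_le_mul_left _ (S.submul m n)
      _ = K * b m * (1 * b n) := by ring
      _ ≤ K * b m * (K * b n) := Nat.mul_le_mul_left _ (Nat.mul_le_mul_right _ hK1)
  have hBmono : Monotone B := fun m n h => by
    rw [hB, hB]; exact Nat.mul_le_mul_left _ (S.mono h)
  have hbpos : ∀ n, (0 : ℝ) < B n := fun n => by exact_mod_cast hB1 n
  have hall : ∀ d r, cumSum A d r ≤ B r := by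
    intro d r
    rw [hA, hB]
    exact cumSum_le_all hC S hp ht hK1 d r
  have hsubB : ∀ t r, (sub C par depth t r).card ≤ B r := by
    intro t r
    rw [hB]
    exact card_sub_le hC hp S t r
  -- M > 0
  have hM0 : 0 < M := by
    have h1 := hM o 0
    have h2 : (1 : ℝ) ≤ (gball G o 0).ncard := by
      rw [S.ncard]
      have h3 : 0 < (Bf o 0).card := by
        rw [Finset.card_pos]
        exact ⟨o, by rw [S.mem]; simp⟩
      exact_mod_cast h3
    by_contra hcon
    push Not at hcon
    nlinarith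
  -- growth
  have hgrow := S.growth hinf hε hR
  have hbtop : Tendsto (fun n => (B n : ℝ)) atTop atTop := by
    have h1 : Tendsto (fun n : ℕ => (1 + ε / ((D : ℝ) + 1)) ^ n) atTop atTop :=
      tendsto_pow_atTop_atTop_of_one_lt (by
        have : 0 < ε / ((D : ℝ) + 1) := by positivity
        linarith)
    apply tendsto_atTop_mono _ h1
    intro n
    have h2 := hgrow 0 n
    rw [Nat.zero_add] at h2
    have h3 : (0 : ℝ) ≤ (1 + ε / ((D : ℝ) + 1)) ^ n := by positivity
    have h4 : (1 : ℝ) ≤ b 0 := by exact_mod_cast S.one_le 0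
    have h5 : (b n : ℝ) ≤ B n := by
      rw [hB]
      exact_mod_cast Nat.le_mul_of_pos_left _ hK1
    nlinarith
  obtain ⟨lam, hlam1, hlb, hlub⟩ := exists_rate B hB1 hBsub
  have hlam0 : 0 < lam := by linarith
  have hgood := fun R => exists_good_radius (fun n => (B n : ℝ)) lam hlam0 hlb R
  choose mR hmR1 hmR2 using hgood
  -- compactness
  obtain ⟨ρ, hρmem, φ, hφ, hφt⟩ :=
    (isCompact_Icc : IsCompact (Set.Icc (0 : κ → ℝ) 1)).tendsto_subseq
      (x := fun R q => (cumSum A q (mR R) : ℝ) / B (mR R)) (by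
        intro R
        constructor
        · intro q
          show (0 : ℝ) ≤ (cumSum A q (mR R) : ℝ) / B (mR R)
          exact div_nonneg (Nat.cast_nonneg _) (hbpos _).le
        · intro q
          show (cumSum A q (mR R) : ℝ) / B (mR R) ≤ 1
          rw [div_le_one (hbpos _)]
          exact_mod_cast hall q (mR R))
  have hρt : ∀ q, Tendsto (fun n => (cumSum A q (mR (φ n)) : ℝ) / B (mR (φ n))) atTop
      (𝓝 (ρ q)) := fun q => (tendsto_pi_nhds.1 hφt) q
  have hρ0 : ∀ q, 0 ≤ ρ q := fun q => hρmem.1 q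
  -- the root is heavy
  have hKr : (0 : ℝ) < K := by exact_mod_cast hK1
  have hroot : 0 < ρ (τ t0) := by
    have h1 : 1 / (M * K) ≤ ρ (τ t0) := by
      apply ge_of_tendsto' (hρt (τ t0))
      intro n
      rw [div_le_div_iff₀ (by positivity) (hbpos _), one_mul]
      obtain ⟨v, hv⟩ := S.attained (mR (φ n))
      have h2 := hM v (mR (φ n))
      rw [S.ncard, S.ncard, hv] at h2
      have h3 : ((Bf o (mR (φ n))).card : ℝ) ≤ cumSum A (τ t0) (mR (φ n)) := by
        rw [hA]
        exact_mod_cast cumSum_root_ge hC hp ht S ht0 (mR (φ n))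
      have h4 : (b (mR (φ n)) : ℝ) ≤ M * cumSum A (τ t0) (mR (φ n)) :=
        h2.trans (mul_le_mul_of_nonneg_left h3 hM0.le)
      rw [hB]
      push_cast
      calc (K : ℝ) * b (mR (φ n)) ≤ K * (M * cumSum A (τ t0) (mR (φ n))) :=
            mul_le_mul_of_nonneg_left h4 hKr.le
        _ = cumSum A (τ t0) (mR (φ n)) * (M * K) := by ring
    exact lt_of_lt_of_le (by positivity) h1
  -- reachability
  let reach : κ → κ → Prop := fun q c => ∃ a : ℕ, 0 < (A ^ a) q c
  have hrefl : ∀ q, reach q q := fun q => ⟨0, by simp⟩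
  have htrans : ∀ q d c, reach q d → reach d c → reach q c := by
    rintro q d c ⟨a, ha⟩ ⟨a', ha'⟩
    exact ⟨a + a', lt_of_lt_of_le (Nat.mul_pos ha ha') (pow_entry_mul A a a' q d c)⟩
  obtain ⟨H, hH⟩ : ∃ H : Finset κ, H = Finset.univ.filter (fun q => reach (τ t0) q ∧ 0 < ρ q) :=
    ⟨_, rfl⟩
  have hHne : H.Nonempty := ⟨τ t0, by rw [hH, Finset.mem_filter]; exact
    ⟨Finset.mem_univ _, hrefl _, hroot⟩⟩
  obtain ⟨q1, hq1H, hq1min⟩ := Finset.exists_min_image H
    (fun q => (Finset.univ.filter (fun c => reach q c)).card) hHne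
  have hq1 : reach (τ t0) q1 ∧ 0 < ρ q1 := by
    rw [hH, Finset.mem_filter] at hq1H
    exact hq1H.2
  obtain ⟨hq1r, hρ1⟩ := hq1
  obtain ⟨ρ1, hρ1def⟩ : ∃ ρ1, ρ1 = ρ q1 := ⟨_, rfl⟩
  rw [← hρ1def] at hρ1
  -- a node of type q1
  obtain ⟨v1, hv1⟩ : ∃ v1, τ v1 = q1 := by
    obtain ⟨a, ha⟩ := hq1r
    rw [hA, ← card_desc_type hC hp ht] at ha
    obtain ⟨v, hv⟩ := Finset.card_pos.1 ha
    exact ⟨v, (Finset.mem_filter.1 hv).2⟩
  -- the class
  let C1 : κ → Prop := fun c => reach q1 c ∧ 0 < ρ c
  have hC1back : ∀ c, C1 c → reach c q1 := by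
    rintro c ⟨hc1, hc2⟩
    have hcH : c ∈ H := by
      rw [hH, Finset.mem_filter]
      exact ⟨Finset.mem_univ _, htrans _ _ _ hq1r hc1, hc2⟩
    have h1 := hq1min c hcH
    have h2 : Finset.univ.filter (fun e => reach c e) ⊆ Finset.univ.filter (fun e => reach q1 e) := by
      intro e he
      rw [Finset.mem_filter] at he ⊢
      exact ⟨Finset.mem_univ _, htrans _ _ _ hc1 he.2⟩
    have h3 := Finset.eq_of_subset_of_card_le h2 h1
    have h4 : q1 ∈ Finset.univ.filter (fun e => reach q1 e) := by
      rw [Finset.mem_filter]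
      exact ⟨Finset.mem_univ _, hrefl _⟩
    rw [← h3, Finset.mem_filter] at h4
    exact h4.2
  have hex : ∀ c, ∃ a a' : ℕ, C1 c → 0 < (A ^ a) q1 c ∧ 0 < (A ^ a') c q1 := by
    intro c
    by_cases hc : C1 c
    · obtain ⟨a, ha⟩ := hc.1
      obtain ⟨a', ha'⟩ := hC1back c hc
      exact ⟨a, a', fun _ => ⟨ha, ha'⟩⟩
    · exact ⟨0, 0, fun h => absurd h hc⟩
  choose a a' haa' using hex
  obtain ⟨W, hW⟩ : ∃ W, W = ∑ c, (a c + a' c) := ⟨_, rfl⟩
  have haW : ∀ c, a c ≤ W ∧ a' c ≤ W := by
    intro c
    have h1 : a c + a' c ≤ W := by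
      rw [hW]
      exact Finset.single_le_sum (f := fun c => a c + a' c) (fun _ _ => Nat.zero_le _)
        (Finset.mem_univ c)
    omega
  have hup : ∀ c, C1 c → ∀ r, cumSum A c r ≤ cumSum A q1 r * B W := by
    intro c hc r
    have h1 := cumSum_shift A q1 c (a c) r (haa' c hc).1
    have h2 := cumSum_mono A q1 (show a c + r ≤ r + W by have := (haW c).1; omega)
    exact h1.trans (h2.trans (cumSum_add_le A q1 r W (B W) (hB1 W) (fun d => hall d W)))
  have hdown : ∀ c, C1 c → ∀ r, cumSum A q1 r ≤ cumSum A c r * B W := by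
    intro c hc r
    have h1 := cumSum_shift A c q1 (a' c) r (haa' c hc).2
    have h2 := cumSum_mono A c (show a' c + r ≤ r + W by have := (haW c).2; omega)
    exact h1.trans (h2.trans (cumSum_add_le A c r W (B W) (hB1 W) (fun d => hall d W)))
  have hP : ∀ l c, C1 c → (((A ^ l) q1 c : ℕ) : ℝ) ≤ lam ^ (l + W) := by
    intro l c hc
    have h1 : (A ^ l) q1 c ≤ (A ^ (l + a' c)) q1 q1 := by
      refine le_trans ?_ (pow_entry_mul A l (a' c) q1 c q1)
      exact Nat.le_mul_of_pos_right _ (haa' c hc).2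
    have h2 : (((A ^ (l + a' c)) q1 q1 : ℕ) : ℝ) ≤ lam ^ (l + a' c) := by
      rcases Nat.eq_zero_or_pos ((A ^ (l + a' c)) q1 q1) with h0 | hpos
      · rw [h0]
        push_cast
        positivity
      · apply hlub _ _ (by exact_mod_cast hpos)
        intro n
        have h3 := pow_diag A (l + a' c) n q1
        have h4 : (A ^ ((l + a' c) * n)) q1 q1 ≤ B ((l + a' c) * n) :=
          (entry_le_rowSum A q1 q1 _).trans ((rowSum_le_cumSum A q1 _).trans (hall _ _))
        exact_mod_cast h3.trans h4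
    have h3 : lam ^ (l + a' c) ≤ lam ^ (l + W) :=
      pow_le_pow_right₀ hlam1 (by have := (haW c).2; omega)
    exact le_trans (by exact_mod_cast h1) (h2.trans h3)
  -- constants
  have hκpos : (0 : ℝ) < Fintype.card κ := by
    exact_mod_cast Fintype.card_pos_iff.2 ⟨q1⟩
  obtain ⟨c3, hc3⟩ : ∃ c3 : ℝ, c3 = ρ1 / (8 * Fintype.card κ * lam ^ W * B W) := ⟨_, rfl⟩
  have hc3pos : 0 < c3 := by
    rw [hc3]
    have := hbpos W
    positivity
  obtain ⟨K2, hK2⟩ : ∃ K2 : ℝ, K2 = max 1 (4 * B W / (ρ1 * c3)) := ⟨_, rfl⟩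
  have hK21 : 1 ≤ K2 := by rw [hK2]; exact le_max_left _ _
  obtain ⟨N, hN⟩ := criterion D ε K2 hε hK21
  refine ⟨N, fun L => ?_⟩
  -- choice of m
  obtain ⟨η, hη⟩ : ∃ η : ℝ, η = ρ1 / (8 * (L + 1) * B L) := ⟨_, rfl⟩
  have hηpos : 0 < η := by
    rw [hη]
    have := hbpos L
    positivity
  have E1 : ∀ᶠ n in atTop, ρ1 / 2 < (cumSum A q1 (mR (φ n)) : ℝ) / B (mR (φ n)) := by
    have h1 := hρt q1
    rw [← hρ1def] at h1
    exact h1.eventually (lt_mem_nhds (by linarith))
  have E2 : ∀ᶠ n in atTop, ∀ d, ρ d = 0 →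
      (cumSum A d (mR (φ n)) : ℝ) / B (mR (φ n)) < η := by
    rw [Filter.eventually_all]
    intro d
    by_cases hd : ρ d = 0
    · have h1 := hρt d
      rw [hd] at h1
      filter_upwards [h1.eventually (gt_mem_nhds hηpos)] with n hn _
      exact hn
    · exact Filter.Eventually.of_forall (fun n h => absurd h hd)
  have hmRtop : Tendsto (fun n => mR (φ n)) atTop atTop := by
    apply tendsto_atTop_mono _ tendsto_id
    intro n
    exact (hφ.le_apply (x := n)).trans (hmR1 (φ n))
  have E3 : ∀ᶠ n in atTop, (8 / ρ1) * B L ≤ B (mR (φ n)) :=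
    (hbtop.comp hmRtop).eventually_ge_atTop _
  obtain ⟨n, hn1, hn2, hn3, hn4⟩ := (E1.and (E2.and (E3.and (eventually_ge_atTop L)))).exists
  obtain ⟨m, hm⟩ : ∃ m, m = mR (φ n) := ⟨_, rfl⟩
  rw [← hm] at hn1 hn2 hn3
  have hLφ : L ≤ φ n := hn4.trans (hφ.le_apply (x := n))
  have hLm : L ≤ m := by rw [hm]; exact hLφ.trans (hmR1 _)
  have hgoodm : ∀ l ≤ L, (B (m - l) : ℝ) * lam ^ l ≤ 2 * B m := by
    intro l hl
    rw [hm]
    exact hmR2 (φ n) l (hl.trans hLφ)
  refine ⟨m, hLm, ?_⟩
  -- the sets of nodes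
  let dp : T → ℕ := fun x => depth x - depth v1
  let γ : T → ℕ → T := fun x l => par^[dp x - l] x
  let Q : ℕ → Finset T := fun l => (desc C par depth v1 l).filter (fun u => C1 (τ u))
  obtain ⟨X, hX⟩ : ∃ X : Finset T, X = (sub C par depth v1 m).filter
      (fun x => L ≤ dp x ∧ ∀ l ≤ L, C1 (τ (γ x l))) := ⟨_, rfl⟩
  have hXk : ∀ x ∈ X, ∃ k ≤ m, x ∈ desc C par depth v1 k ∧ dp x = k ∧ L ≤ k ∧
      ∀ l ≤ L, C1 (τ (γ x l)) := by
    intro x hx
    rw [hX, Finset.mem_filter, mem_sub] at hx
    obtain ⟨⟨k, hk, hxk⟩, h1, h2⟩ := hx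
    have hdp : dp x = k := by
      have := ((mem_desc hC).1 hxk).1
      show depth x - depth v1 = k
      omega
    exact ⟨k, hk, hxk, hdp, hdp ▸ h1, h2⟩
  have hγQ : ∀ x ∈ X, ∀ l ≤ L, γ x l ∈ Q l ∧ x ∈ sub C par depth (γ x l) (m - l) := by
    intro x hx l hl
    obtain ⟨k, hk, hxk, hdp, hLk, hC1⟩ := hXk x hx
    have h1 := ancestor_mem hC hp hxk (hl.trans hLk)
    have h2 : γ x l = par^[k - l] x := by
      show par^[dp x - l] x = _
      rw [hdp]
    refine ⟨Finset.mem_filter.2 ⟨by rw [h2]; exact h1.1, hC1 l hl⟩, ?_⟩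
    rw [mem_sub, h2]
    exact ⟨k - l, by omega, h1.2⟩
  -- lower bound for X
  have hXcard : ρ1 / 4 * B m ≤ X.card := by
    have hcover : sub C par depth v1 m ⊆ X ∪ sub C par depth v1 L ∪
        (Finset.range (L + 1)).biUnion (fun l =>
          ((desc C par depth v1 l).filter (fun u => ¬ C1 (τ u))).biUnion
            (fun u => sub C par depth u (m - l))) := by
      intro x hx
      rw [Finset.mem_union, Finset.mem_union]
      obtain ⟨k, hk, hxk⟩ := mem_sub.1 hx
      have hdp : dp x = k := by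
        have := ((mem_desc hC).1 hxk).1
        show depth x - depth v1 = k
        omega
      by_cases hkL : k < L
      · left; right
        rw [mem_sub]
        exact ⟨k, hkL.le, hxk⟩
      · push Not at hkL
        by_cases hC1 : ∀ l ≤ L, C1 (τ (γ x l))
        · left; left
          rw [hX, Finset.mem_filter]
          exact ⟨hx, hdp ▸ hkL, hC1⟩
        · right
          push Not at hC1
          obtain ⟨l, hl, hCl⟩ := hC1
          have h1 := ancestor_mem hC hp hxk (hl.trans hkL)
          have h2 : γ x l = par^[k - l] x := by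
            show par^[dp x - l] x = _
            rw [hdp]
          rw [Finset.mem_biUnion]
          refine ⟨l, Finset.mem_range.2 (by omega), ?_⟩
          rw [Finset.mem_biUnion]
          refine ⟨γ x l, Finset.mem_filter.2 ⟨by rw [h2]; exact h1.1, hCl⟩, ?_⟩
          rw [mem_sub, h2]
          exact ⟨k - l, by omega, h1.2⟩
    have h1 : (sub C par depth v1 m).card ≤ X.card + B L +
        ∑ l ∈ Finset.range (L + 1), ∑ u ∈ (desc C par depth v1 l).filter (fun u => ¬ C1 (τ u)),
          (sub C par depth u (m - l)).card := by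
      refine (Finset.card_le_card hcover).trans ?_
      refine (Finset.card_union_le _ _).trans ?_
      refine Nat.add_le_add ((Finset.card_union_le _ _).trans (Nat.add_le_add_left ?_ _)) ?_
      · exact hsubB v1 L
      · refine Finset.card_biUnion_le.trans (Finset.sum_le_sum (fun l _ => ?_))
        exact Finset.card_biUnion_le
    have h2 : (sub C par depth v1 m).card = cumSum A q1 m := by
      rw [card_sub hC hp ht, hA, hv1]
    have h3 : ∀ l ∈ Finset.range (L + 1),
        (∑ u ∈ (desc C par depth v1 l).filter (fun u => ¬ C1 (τ u)),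
          ((sub C par depth u (m - l)).card : ℝ)) ≤ B L * (η * B m) := by
      intro l hl
      rw [Finset.mem_range] at hl
      have h4 : ∀ u ∈ (desc C par depth v1 l).filter (fun u => ¬ C1 (τ u)),
          ((sub C par depth u (m - l)).card : ℝ) ≤ η * B m := by
        intro u hu
        rw [Finset.mem_filter] at hu
        have hreach : reach q1 (τ u) := by
          refine ⟨l, ?_⟩
          rw [hA, ← hv1, ← card_desc_type hC hp ht, Finset.card_pos]
          exact ⟨u, Finset.mem_filter.2 ⟨hu.1, rfl⟩⟩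
        have hzero : ρ (τ u) = 0 := by
          by_contra hne
          exact hu.2 ⟨hreach, lt_of_le_of_ne (hρ0 _) (Ne.symm hne)⟩
        have h5 := hn2 (τ u) hzero
        rw [div_lt_iff₀ (hbpos m)] at h5
        have h6 : (sub C par depth u (m - l)).card ≤ cumSum A (τ u) m := by
          rw [card_sub hC hp ht, ← hA]
          exact cumSum_mono A _ (Nat.sub_le _ _)
        exact le_trans (by exact_mod_cast h6) h5.le
      refine (Finset.sum_le_sum h4).trans ?_
      rw [Finset.sum_const, nsmul_eq_mul]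
      apply mul_le_mul_of_nonneg_right _ (by have := hbpos m; positivity)
      have h7 : ((desc C par depth v1 l).filter (fun u => ¬ C1 (τ u))).card ≤ B L := by
        refine (Finset.card_le_card (Finset.filter_subset _ _)).trans ?_
        rw [card_desc hC hp ht, ← hA]
        exact (rowSum_le_cumSum A _ l).trans ((hall _ l).trans (hBmono (by omega)))
      exact_mod_cast h7
    have h8 : (cumSum A q1 m : ℝ) ≤ X.card + B L + (L + 1) * (B L * (η * B m)) := by
      have h9 : (cumSum A q1 m : ℝ) ≤ X.card + B L +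
        ∑ l ∈ Finset.range (L + 1), ∑ u ∈ (desc C par depth v1 l).filter (fun u => ¬ C1 (τ u)),
          ((sub C par depth u (m - l)).card : ℝ) := by
        rw [← h2]
        exact_mod_cast h1
      have h10 := Finset.sum_le_sum h3
      rw [Finset.sum_const, Finset.card_range, nsmul_eq_mul] at h10
      push_cast at h10
      linarith
    have h11 : ρ1 / 2 * B m < cumSum A q1 m := by
      rw [lt_div_iff₀ (hbpos m)] at hn1
      exact hn1
    have h12 : ((L : ℝ) + 1) * (B L * (η * B m)) = ρ1 / 8 * B m := by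
      rw [hη]
      have := (hbpos L).ne'
      field_simp
    have h13 : (B L : ℝ) ≤ ρ1 / 8 * B m := by
      have h14 : ρ1 / 8 * (8 / ρ1 * B L) ≤ ρ1 / 8 * B m :=
        mul_le_mul_of_nonneg_left hn3 (by positivity)
      have h15 : ρ1 / 8 * (8 / ρ1 * B L) = B L := by field_simp
      linarith
    linarith
  have hXpos : (0 : ℝ) < X.card := lt_of_lt_of_le (by have := hbpos m; positivity) hXcard
  have hXne : X.Nonempty := by
    rw [← Finset.card_pos]
    exact_mod_cast hXpos
  -- covering bound
  have hcov : ∀ l ≤ L, ((Q l).card : ℝ) * B (m - l) ≤ K2 * X.card := by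
    intro l hl
    -- (1)
    have h1 : (X.card : ℝ) ≤ (Q l).card * (cumSum A q1 (m - l) * B W) := by
      have hsub : X ⊆ (Q l).biUnion (fun u => sub C par depth u (m - l)) := by
        intro x hx
        rw [Finset.mem_biUnion]
        exact ⟨γ x l, (hγQ x hx l hl).1, (hγQ x hx l hl).2⟩
      have h2 : ((Q l).biUnion (fun u => sub C par depth u (m - l))).card ≤
          (Q l).card * (cumSum A q1 (m - l) * B W) := by
        apply Finset.card_biUnion_le_card_mul
        intro u hu
        rw [card_sub hC hp ht, ← hA]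
        exact hup (τ u) (Finset.mem_filter.1 hu).2 (m - l)
      exact_mod_cast (Finset.card_le_card hsub).trans h2
    -- (2)
    have h2 : ((Q l).card : ℝ) ≤ Fintype.card κ * lam ^ (l + W) := by
      have h3 : (Q l).card = ∑ c ∈ Finset.univ.filter (fun c => C1 c), (A ^ l) q1 c := by
        have h4 : (Q l).card = ∑ c ∈ Finset.univ.filter (fun c => C1 c),
            ((Q l).filter (fun u => τ u = c)).card := by
          apply Finset.card_eq_sum_card_fiberwise
          intro u hu
          rw [Finset.mem_coe, Finset.mem_filter]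
          exact ⟨Finset.mem_univ _, (Finset.mem_filter.1 hu).2⟩
        rw [h4]
        apply Finset.sum_congr rfl
        intro c hc
        rw [Finset.mem_filter] at hc
        rw [hA, ← hv1, ← card_desc_type hC hp ht]
        congr 1
        ext u
        simp only [Q, Finset.mem_filter]
        constructor
        · rintro ⟨⟨h5, _⟩, h6⟩
          exact ⟨h5, h6⟩
        · rintro ⟨h5, h6⟩
          exact ⟨⟨h5, h6 ▸ hc.2⟩, h6⟩
      rw [h3]
      push_cast
      have h5 : ∀ c ∈ Finset.univ.filter (fun c => C1 c), (((A ^ l) q1 c : ℕ) : ℝ) ≤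
          lam ^ (l + W) := fun c hc => hP l c (Finset.mem_filter.1 hc).2
      refine (Finset.sum_le_sum h5).trans ?_
      rw [Finset.sum_const, nsmul_eq_mul]
      apply mul_le_mul_of_nonneg_right _ (by positivity)
      have h6 : (Finset.univ.filter (fun c => C1 c)).card ≤ Fintype.card κ :=
        Finset.card_le_univ _
      exact_mod_cast h6
    -- (5)
    have h3 : c3 * B (m - l) ≤ cumSum A q1 (m - l) := by
      have h4 : ρ1 / 4 * B m ≤ Fintype.card κ * lam ^ (l + W) *
          (cumSum A q1 (m - l) * B W) := by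
        refine hXcard.trans (h1.trans (mul_le_mul_of_nonneg_right h2 ?_))
        have := (hbpos W).le
        positivity
      have h5 := hgoodm l hl
      have h6 : ρ1 / 8 * (B (m - l) * lam ^ l) ≤ Fintype.card κ * lam ^ (l + W) *
          (cumSum A q1 (m - l) * B W) := by
        refine le_trans ?_ h4
        have h7 : ρ1 / 8 * (B (m - l) * lam ^ l) ≤ ρ1 / 8 * (2 * B m) :=
          mul_le_mul_of_nonneg_left h5 (by positivity)
        linarith
      rw [hc3, div_mul_eq_mul_div, div_le_iff₀ (by have := hbpos W; positivity)]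
      have hlamp : (0 : ℝ) < lam ^ l := by positivity
      have h8 : lam ^ l * (ρ1 * B (m - l)) ≤
          lam ^ l * (cumSum A q1 (m - l) * (8 * Fintype.card κ * lam ^ W * B W)) := by
        rw [pow_add] at h6
        nlinarith [h6]
      exact le_of_mul_le_mul_left h8 hlamp
    -- (7)
    have h4 : ((Q l).card : ℝ) * (c3 * B (m - l)) ≤ B m * B W := by
      have h5 : ∑ u ∈ Q l, ((sub C par depth u (m - l)).card : ℝ) ≤ B m := by
        have h6 : ∑ u ∈ Q l, (sub C par depth u (m - l)).card =
            ((Q l).biUnion (fun u => sub C par depth u (m - l))).card := by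
          rw [Finset.card_biUnion]
          intro u hu w hw huw
          rw [Function.onFun, Finset.disjoint_left]
          intro x hx hx'
          obtain ⟨k1, _, hx1⟩ := mem_sub.1 hx
          obtain ⟨k2, _, hx2⟩ := mem_sub.1 hx'
          have e1 := (mem_desc hC).1 (Finset.mem_filter.1 hu).1
          have e2 := (mem_desc hC).1 (Finset.mem_filter.1 hw).1
          have e3 := (mem_desc hC).1 hx1
          have e4 := (mem_desc hC).1 hx2
          have e5 : k1 = k2 := by omega
          rw [e5] at e3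
          exact huw (e3.2.symm.trans e4.2)
        have h7 : (Q l).biUnion (fun u => sub C par depth u (m - l)) ⊆
            sub C par depth v1 m := by
          intro x hx
          rw [Finset.mem_biUnion] at hx
          obtain ⟨u, hu, hxu⟩ := hx
          obtain ⟨k, hk, hxk⟩ := mem_sub.1 hxu
          rw [mem_sub]
          exact ⟨l + k, by omega, desc_trans hC (Finset.mem_filter.1 hu).1 hxk⟩
        have h8 : ∑ u ∈ Q l, (sub C par depth u (m - l)).card ≤ B m := by
          rw [h6]
          exact (Finset.card_le_card h7).trans (hsubB v1 m)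
        exact_mod_cast h8
      have h6 : ∀ u ∈ Q l, c3 * B (m - l) ≤ ((sub C par depth u (m - l)).card : ℝ) * B W := by
        intro u hu
        refine h3.trans ?_
        rw [card_sub hC hp ht, ← hA]
        exact_mod_cast hdown (τ u) (Finset.mem_filter.1 hu).2 (m - l)
      have h7 := Finset.sum_le_sum h6
      rw [Finset.sum_const, nsmul_eq_mul, ← Finset.sum_mul] at h7
      exact h7.trans (mul_le_mul_of_nonneg_right h5 (hbpos W).le)
    have h5 : (B m : ℝ) ≤ 4 / ρ1 * X.card := by
      have h6 : 4 / ρ1 * (ρ1 / 4 * B m) ≤ 4 / ρ1 * X.card :=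
        mul_le_mul_of_nonneg_left hXcard (by positivity)
      have h7 : 4 / ρ1 * (ρ1 / 4 * B m) = B m := by field_simp
      linarith
    have h6 : ((Q l).card : ℝ) * B (m - l) ≤ 4 * B W / (ρ1 * c3) * X.card := by
      have h7 : c3 * (((Q l).card : ℝ) * B (m - l)) ≤ c3 * (4 * B W / (ρ1 * c3) * X.card) := by
        have h8 : c3 * (4 * B W / (ρ1 * c3) * X.card) = 4 / ρ1 * X.card * B W := by
          field_simp
        rw [h8]
        calc c3 * (((Q l).card : ℝ) * B (m - l)) = ((Q l).card : ℝ) * (c3 * B (m - l)) := by ring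
          _ ≤ B m * B W := h4
          _ ≤ 4 / ρ1 * X.card * B W := mul_le_mul_of_nonneg_right h5 (hbpos W).le
      exact le_of_mul_le_mul_left h7 hc3pos
    refine h6.trans (mul_le_mul_of_nonneg_right ?_ (Nat.cast_nonneg _))
    rw [hK2]
    exact le_max_right _ _
  -- pass to vertices
  obtain ⟨XV, hXV⟩ : ∃ XV : Finset V, XV = X.image pt := ⟨_, rfl⟩
  have hch : ∀ v, ∃ s, v ∈ XV → s ∈ X ∧ pt s = v := by
    intro v
    by_cases hv : v ∈ XV
    · rw [hXV, Finset.mem_image] at hv
      obtain ⟨s, hs, hsv⟩ := hv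
      exact ⟨s, fun _ => ⟨hs, hsv⟩⟩
    · exact ⟨t0, fun h => absurd h hv⟩
  choose nd hnd using hch
  have hXXV : (X.card : ℝ) ≤ K * XV.card := by
    have h1 : X.card ≤ K * XV.card := by
      rw [hXV]
      apply Finset.card_le_mul_card_image_of_maps_to (fun s hs => Finset.mem_image_of_mem pt hs)
      intro v _
      have h2 : ((X.filter (fun s => pt s = v) : Finset T) : Set T) ⊆ {t | pt t = v} := by
        intro s hs
        rw [Finset.coe_filter] at hs
        exact hs.2
      have h3 := Set.ncard_le_ncard h2 (hp.fibre v).1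
      rw [Set.ncard_coe_finset] at h3
      exact h3.trans (hp.fibre v).2
    exact_mod_cast h1
  -- apply the criterion
  obtain ⟨Λ, hΛ⟩ : ∃ Λ : Finset ℕ, Λ = (Finset.range (L + 1)).filter
      (fun l => m - l ∈ expRadii G ε) := ⟨_, rfl⟩
  have hΛL : ∀ l ∈ Λ, l ≤ L ∧ m - l ∈ expRadii G ε := by
    intro l hl
    rw [hΛ, Finset.mem_filter, Finset.mem_range] at hl
    exact ⟨by omega, hl.2⟩
  have hmain := hN V G hinf hG hdeg hR m Λ XV (fun v l => pt (γ (nd v) l))
    (fun l => (Q l).image pt) (by rw [hXV]; exact hXne.image pt)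
    (fun l hl => (hΛL l hl).2)
    (by
      intro v hv
      obtain ⟨hxX, hxv⟩ := hnd v hv
      obtain ⟨x, hx⟩ : ∃ x, x = nd v := ⟨_, rfl⟩
      rw [← hx] at hxX hxv
      show G.dist (pt (γ (nd v) 0)) v ≤ m ∧ _
      rw [← hx]
      obtain ⟨k, hk, hxk, hdp, hLk, hC1⟩ := hXk x hxX
      have hxd := (mem_desc hC).1 hxk
      have hγ : ∀ l, γ x l = par^[k - l] x := by
        intro l
        show par^[dp x - l] x = _
        rw [hdp]
      have hγ0 : γ x 0 = v1 := by rw [hγ, Nat.sub_zero]; exact hxd.2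
      have hd0 : G.dist (pt (γ x 0)) v = k := by
        rw [hγ0, ← hxv]
        exact dist_of_mem_desc hC hp hG hxk
      rw [hd0]
      refine ⟨hk, ?_, ?_, ?_⟩
      · rw [hγ, Nat.sub_self]
        exact hxv
      · intro l l' hl hl'
        rw [hγ l, hγ l']
        have e1 : par^[k - l] x = par^[l' - l] (par^[k - l'] x) := by
          rw [← Function.iterate_add_apply]
          congr 1
          omega
        rw [e1]
        apply dist_iterate_eq hp hG
        rw [depth_iterate hp (k - l') x (by omega)]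
        omega
      · intro l hl
        exact (hΛL l hl).1.trans hLk)
    (by
      intro l hl
      have h1 := hcov l (hΛL l hl).1
      have h2 : (((Q l).image pt).card : ℝ) ≤ (Q l).card := by
        exact_mod_cast Finset.card_image_le
      rw [← S.eq_max]
      have h3 : (K : ℝ) * (((Q l).image pt).card * b (m - l)) ≤ K * (K2 * XV.card) := by
        calc (K : ℝ) * (((Q l).image pt).card * b (m - l))
            = ((Q l).image pt).card * B (m - l) := by rw [hB]; push_cast; ring
          _ ≤ (Q l).card * B (m - l) := mul_le_mul_of_nonneg_right h2 (Nat.cast_nonneg _)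
          _ ≤ K2 * X.card := h1
          _ ≤ K2 * (K * XV.card) := mul_le_mul_of_nonneg_left hXXV (by linarith)
          _ = K * (K2 * XV.card) := by ring
      exact le_of_mul_le_mul_left h3 hKr)
    (by
      intro v hv
      have hxX := (hnd v hv).1
      have h1 : Λ.filter (fun l => pt (γ (nd v) l) ∈ (Q l).image pt) = Λ := by
        rw [Finset.filter_eq_self]
        intro l hl
        exact Finset.mem_image_of_mem pt (hγQ _ hxX l (hΛL l hl).1).1
      rw [h1]
      have : (0 : ℝ) ≤ Λ.card := Nat.cast_nonneg _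
      nlinarith)
  refine le_trans ?_ hmain
  rw [← Set.ncard_coe_finset]
  apply Set.ncard_le_ncard_of_injOn (fun n => m - n)
  · rintro n ⟨h1, h2, h3⟩
    rw [Finset.mem_coe, hΛ, Finset.mem_filter, Finset.mem_range]
    refine ⟨by omega, ?_⟩
    rw [show m - (m - n) = n by omega]
    exact h1
  · rintro n ⟨h1, h2, h3⟩ n' ⟨h1', h2', h3'⟩ h
    simp only at h
    omega

end Pool.Agent.XBL
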